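import Mathlib

/-! Planar graphs, 1-bend drawings and 1-bend free sets. -/

namespace Pool.Agent.MP_856573_co.H90

open Set

variable {V : Type}

/-- `pos` places the vertices at distinct points and `C u v` is the point set of the edge `u v`:
no edge passes through a vertex other than its ends, and two different edges meet only at a common
endpoint. -/
def CrossingFree (G : SimpleGraph V) (pos : V → ℝ × ℝ) (C : V → V → Set (ℝ × ℝ)) : Prop :=
  Function.Injective pos ∧
  (∀ u v w, G.Adj u v → pos w ∈ C u v → w = u ∨ w = v) ∧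
  (∀ u v u' v', G.Adj u v → G.Adj u' v' → s(u, v) ≠ s(u', v') → ∀ p ∈ C u v, p ∈ C u' v' →
    ∃ w, (w = u ∨ w = v) ∧ (w = u' ∨ w = v') ∧ p = pos w)

/-- `G` is planar: it has a crossing-free drawing whose edges are simple curves. -/
def IsPlanar (G : SimpleGraph V) : Prop :=
  ∃ (pos : V → ℝ × ℝ) (γ : V → V → ℝ → ℝ × ℝ),
    (∀ u v, G.Adj u v → ContinuousOn (γ u v) (Icc 0 1) ∧ InjOn (γ u v) (Icc 0 1) ∧
      γ u v 0 = pos u ∧ γ u v 1 = pos v ∧ γ u v '' Icc 0 1 = γ v u '' Icc 0 1) ∧
    CrossingFree G pos (fun u v => γ u v '' Icc 0 1)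

/-- The polygonal chain from `pos u` through the point `b u v` to `pos v`. -/
def chain (pos : V → ℝ × ℝ) (b : V → V → ℝ × ℝ) (u v : V) : Set (ℝ × ℝ) :=
  segment ℝ (pos u) (b u v) ∪ segment ℝ (b u v) (pos v)

/-- `G` has a 1-bend drawing with vertex positions `pos`: every edge is a simple polygonal chain of
at most two segments (a straight edge has `b u v` on it), and the drawing is crossing-free. -/
def OneBend (G : SimpleGraph V) (pos : V → ℝ × ℝ) : Prop :=
  ∃ b : V → V → ℝ × ℝ,
    (∀ u v, G.Adj u v → b u v = b v u ∧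
      segment ℝ (pos u) (b u v) ∩ segment ℝ (b u v) (pos v) = {b u v}) ∧
    CrossingFree G pos (chain pos b)

/-- The sequence `v` of distinct vertices is a 1-bend free set of `G`. -/
def IsFree (G : SimpleGraph V) {s : ℕ} (v : Fin s → V) : Prop :=
  Function.Injective v ∧ ∀ x y : Fin s → ℝ, StrictMono x →
    ∃ pos, OneBend G pos ∧ ∀ i, pos (v i) = (x i, y i)

/-- `m G`: the largest size of a 1-bend free set of `G`. -/
noncomputable def m (G : SimpleGraph V) : ℕ := sSup {s | ∃ v : Fin s → V, IsFree G v}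

end Pool.Agent.MP_856573_co.H90
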