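import Pool.Agent.MP_856573_co.H90.Parity

/-! The finite check: a two-page layout of the triangular bipyramid cannot have a witness point on
the spine for each of its six faces. -/

set_option linter.unusedSimpArgs false

namespace Pool.Agent.MP_856573_co.H90

def fa (p : Bool → Bool) : Bool := p true && p false
def ex (p : Bool → Bool) : Bool := p true || p false

lemma fa_spec {p : Bool → Bool} (h : fa p = true) (b : Bool) : p b = true := by
  unfold fa at h; cases b <;> simp_all
lemma ex_spec {p : Bool → Bool} (b : Bool) (h : p b = true) : ex p = true := by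
  unfold ex; cases b <;> simp_all

def trB (g01 g02 g03 g04 g12 g13 g14 g23 g24 g34 : Bool) : Bool :=
  (!(g01 == g12) || (g02 == g01)) &&
  (!(g01 == g13) || (g03 == g01)) &&
  (!(g01 == g14) || (g04 == g01)) &&
  (!(g02 == g23) || (g03 == g02)) &&
  (!(g02 == g24) || (g04 == g02)) &&
  (!(g03 == g34) || (g04 == g03)) &&
  (!(g12 == g23) || (g13 == g12)) &&
  (!(g12 == g24) || (g14 == g12)) &&
  (!(g13 == g34) || (g14 == g13)) &&
  (!(g23 == g34) || (g24 == g23))

def ncB (g01 g02 g03 g04 g12 g13 g14 g23 g24 g34 u01 u02 u03 u12 u13 u14 u23 u24 u34 : Bool) : Bool :=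
  (!(u01 == u23) || ((g02 ^^ g12) == (g03 ^^ g13))) &&
  (!(u01 == u24) || ((g02 ^^ g12) == (g04 ^^ g14))) &&
  (!(u01 == u34) || ((g03 ^^ g13) == (g04 ^^ g14))) &&
  (!(u02 == u13) || ((g01 ^^ (!g12)) == (g03 ^^ g23))) &&
  (!(u02 == u14) || ((g01 ^^ (!g12)) == (g04 ^^ g24))) &&
  (!(u02 == u34) || ((g03 ^^ g23) == (g04 ^^ g24))) &&
  (!(u03 == u12) || ((g01 ^^ (!g13)) == (g02 ^^ (!g23)))) &&
  (!(u03 == u14) || ((g01 ^^ (!g13)) == (g04 ^^ g34))) &&
  (!(u03 == u24) || ((g02 ^^ (!g23)) == (g04 ^^ g34))) &&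
  (!(u12 == u34) || ((g13 ^^ g23) == (g14 ^^ g24))) &&
  (!(u13 == u24) || ((g12 ^^ (!g23)) == (g14 ^^ g34))) &&
  (!(u14 == u23) || ((g12 ^^ (!g24)) == (g13 ^^ (!g34))))

def monB (g01 g02 g03 g04 g12 g13 g14 g23 g24 g34 h0 h1 h2 h3 h4 : Bool) : Bool :=
  (!(h0 && (!g01)) || h1) &&
  (!(h0 && (!g02)) || h2) &&
  (!(h0 && (!g03)) || h3) &&
  (!(h0 && (!g04)) || h4) &&
  (!(h1 && g01) || h0) &&
  (!(h1 && (!g12)) || h2) &&
  (!(h1 && (!g13)) || h3) &&
  (!(h1 && (!g14)) || h4) &&
  (!(h2 && g02) || h0) &&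
  (!(h2 && g12) || h1) &&
  (!(h2 && (!g23)) || h3) &&
  (!(h2 && (!g24)) || h4) &&
  (!(h3 && g03) || h0) &&
  (!(h3 && g13) || h1) &&
  (!(h3 && g23) || h2) &&
  (!(h3 && (!g34)) || h4) &&
  (!(h4 && g04) || h0) &&
  (!(h4 && g14) || h1) &&
  (!(h4 && g24) || h2) &&
  (!(h4 && g34) || h3)

def tpB (uab ubc uca a b c : Bool) : Bool :=
  ((uab && (a ^^ b)) ^^ (ubc && (b ^^ c))) ^^ (uca && (c ^^ a))

def wit0 (g01 g02 g03 g04 g12 g13 g14 g23 g24 g34 u01 u02 u03 u12 u13 u14 u23 u24 u34 h0 h1 h2 h3 h4 : Bool) : Bool :=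
  monB g01 g02 g03 g04 g12 g13 g14 g23 g24 g34 h0 h1 h2 h3 h4 &&
  (tpB u12 u24 u14 h1 h2 h4 == tpB u12 u24 u14 (!g01) (!g02) (!g04)) &&
  (tpB u02 u23 u03 h0 h2 h3 == tpB u02 u23 u03 g01 (!g12) (!g13)) &&
  (tpB u01 u13 u03 h0 h1 h3 == tpB u01 u13 u03 g02 g12 (!g23)) &&
  (tpB u23 u34 u24 h2 h3 h4 == tpB u23 u34 u24 (!g02) (!g03) (!g04)) &&
  (tpB u23 u34 u24 h2 h3 h4 == tpB u23 u34 u24 (!g12) (!g13) (!g14)) &&
  (tpB u13 u34 u14 h1 h3 h4 == tpB u13 u34 u14 (!g01) (!g03) (!g04)) &&
  (tpB u13 u34 u14 h1 h3 h4 == tpB u13 u34 u14 g12 (!g23) (!g24)) &&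
  (tpB u12 u23 u13 h1 h2 h3 == tpB u12 u23 u13 (!g01) (!g02) (!g03))

def wit1 (g01 g02 g03 g04 g12 g13 g14 g23 g24 g34 u01 u02 u03 u12 u13 u14 u23 u24 u34 h0 h1 h2 h3 h4 : Bool) : Bool :=
  monB g01 g02 g03 g04 g12 g13 g14 g23 g24 g34 h0 h1 h2 h3 h4 &&
  (tpB u01 u12 u02 h0 h1 h2 == tpB u01 u12 u02 g04 g14 g24) &&
  (tpB u02 u23 u03 h0 h2 h3 == tpB u02 u23 u03 g01 (!g12) (!g13)) &&
  (tpB u02 u23 u03 h0 h2 h3 == tpB u02 u23 u03 g04 g24 g34) &&
  (tpB u01 u13 u03 h0 h1 h3 == tpB u01 u13 u03 g02 g12 (!g23)) &&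
  (tpB u01 u13 u03 h0 h1 h3 == tpB u01 u13 u03 g04 g14 g34) &&
  (tpB u23 u34 u24 h2 h3 h4 == tpB u23 u34 u24 (!g12) (!g13) (!g14)) &&
  (tpB u13 u34 u14 h1 h3 h4 == tpB u13 u34 u14 g12 (!g23) (!g24)) &&
  (tpB u12 u23 u13 h1 h2 h3 == tpB u12 u23 u13 g14 g24 g34)

def wit2 (g01 g02 g03 g04 g12 g13 g14 g23 g24 g34 u01 u02 u03 u12 u13 u14 u23 u24 u34 h0 h1 h2 h3 h4 : Bool) : Bool :=
  monB g01 g02 g03 g04 g12 g13 g14 g23 g24 g34 h0 h1 h2 h3 h4 &&
  (tpB u01 u12 u02 h0 h1 h2 == tpB u01 u12 u02 g03 g13 g23) &&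
  (tpB u12 u24 u14 h1 h2 h4 == tpB u12 u24 u14 (!g01) (!g02) (!g04)) &&
  (tpB u12 u24 u14 h1 h2 h4 == tpB u12 u24 u14 g13 g23 (!g34)) &&
  (tpB u01 u13 u03 h0 h1 h3 == tpB u01 u13 u03 g02 g12 (!g23)) &&
  (tpB u23 u34 u24 h2 h3 h4 == tpB u23 u34 u24 (!g02) (!g03) (!g04)) &&
  (tpB u13 u34 u14 h1 h3 h4 == tpB u13 u34 u14 (!g01) (!g03) (!g04)) &&
  (tpB u13 u34 u14 h1 h3 h4 == tpB u13 u34 u14 g12 (!g23) (!g24)) &&
  (tpB u12 u23 u13 h1 h2 h3 == tpB u12 u23 u13 (!g01) (!g02) (!g03))

def wit3 (g01 g02 g03 g04 g12 g13 g14 g23 g24 g34 u01 u02 u03 u12 u13 u14 u23 u24 u34 h0 h1 h2 h3 h4 : Bool) : Bool :=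
  monB g01 g02 g03 g04 g12 g13 g14 g23 g24 g34 h0 h1 h2 h3 h4 &&
  (tpB u01 u12 u02 h0 h1 h2 == tpB u01 u12 u02 g03 g13 g23) &&
  (tpB u12 u24 u14 h1 h2 h4 == tpB u12 u24 u14 (!g01) (!g02) (!g04)) &&
  (tpB u12 u24 u14 h1 h2 h4 == tpB u12 u24 u14 g13 g23 (!g34)) &&
  (tpB u02 u23 u03 h0 h2 h3 == tpB u02 u23 u03 g01 (!g12) (!g13)) &&
  (tpB u23 u34 u24 h2 h3 h4 == tpB u23 u34 u24 (!g02) (!g03) (!g04)) &&
  (tpB u23 u34 u24 h2 h3 h4 == tpB u23 u34 u24 (!g12) (!g13) (!g14)) &&
  (tpB u13 u34 u14 h1 h3 h4 == tpB u13 u34 u14 (!g01) (!g03) (!g04)) &&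
  (tpB u12 u23 u13 h1 h2 h3 == tpB u12 u23 u13 (!g01) (!g02) (!g03))

def wit4 (g01 g02 g03 g04 g12 g13 g14 g23 g24 g34 u01 u02 u03 u12 u13 u14 u23 u24 u34 h0 h1 h2 h3 h4 : Bool) : Bool :=
  monB g01 g02 g03 g04 g12 g13 g14 g23 g24 g34 h0 h1 h2 h3 h4 &&
  (tpB u01 u12 u02 h0 h1 h2 == tpB u01 u12 u02 g03 g13 g23) &&
  (tpB u01 u12 u02 h0 h1 h2 == tpB u01 u12 u02 g04 g14 g24) &&
  (tpB u12 u24 u14 h1 h2 h4 == tpB u12 u24 u14 g13 g23 (!g34)) &&
  (tpB u02 u23 u03 h0 h2 h3 == tpB u02 u23 u03 g04 g24 g34) &&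
  (tpB u01 u13 u03 h0 h1 h3 == tpB u01 u13 u03 g02 g12 (!g23)) &&
  (tpB u01 u13 u03 h0 h1 h3 == tpB u01 u13 u03 g04 g14 g34) &&
  (tpB u13 u34 u14 h1 h3 h4 == tpB u13 u34 u14 g12 (!g23) (!g24)) &&
  (tpB u12 u23 u13 h1 h2 h3 == tpB u12 u23 u13 g14 g24 g34)

def wit5 (g01 g02 g03 g04 g12 g13 g14 g23 g24 g34 u01 u02 u03 u12 u13 u14 u23 u24 u34 h0 h1 h2 h3 h4 : Bool) : Bool :=
  monB g01 g02 g03 g04 g12 g13 g14 g23 g24 g34 h0 h1 h2 h3 h4 &&
  (tpB u01 u12 u02 h0 h1 h2 == tpB u01 u12 u02 g03 g13 g23) &&
  (tpB u01 u12 u02 h0 h1 h2 == tpB u01 u12 u02 g04 g14 g24) &&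
  (tpB u12 u24 u14 h1 h2 h4 == tpB u12 u24 u14 g13 g23 (!g34)) &&
  (tpB u02 u23 u03 h0 h2 h3 == tpB u02 u23 u03 g01 (!g12) (!g13)) &&
  (tpB u02 u23 u03 h0 h2 h3 == tpB u02 u23 u03 g04 g24 g34) &&
  (tpB u01 u13 u03 h0 h1 h3 == tpB u01 u13 u03 g04 g14 g34) &&
  (tpB u23 u34 u24 h2 h3 h4 == tpB u23 u34 u24 (!g12) (!g13) (!g14)) &&
  (tpB u12 u23 u13 h1 h2 h3 == tpB u12 u23 u13 g14 g24 g34)

def allW (g01 g02 g03 g04 g12 g13 g14 g23 g24 g34 u01 u02 u03 u12 u13 u14 u23 u24 u34 : Bool) : Bool :=
  (ex fun h0 => ex fun h1 => ex fun h2 => ex fun h3 => ex fun h4 => wit0 g01 g02 g03 g04 g12 g13 g14 g23 g24 g34 u01 u02 u03 u12 u13 u14 u23 u24 u34 h0 h1 h2 h3 h4) &&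
  (ex fun h0 => ex fun h1 => ex fun h2 => ex fun h3 => ex fun h4 => wit1 g01 g02 g03 g04 g12 g13 g14 g23 g24 g34 u01 u02 u03 u12 u13 u14 u23 u24 u34 h0 h1 h2 h3 h4) &&
  (ex fun h0 => ex fun h1 => ex fun h2 => ex fun h3 => ex fun h4 => wit2 g01 g02 g03 g04 g12 g13 g14 g23 g24 g34 u01 u02 u03 u12 u13 u14 u23 u24 u34 h0 h1 h2 h3 h4) &&
  (ex fun h0 => ex fun h1 => ex fun h2 => ex fun h3 => ex fun h4 => wit3 g01 g02 g03 g04 g12 g13 g14 g23 g24 g34 u01 u02 u03 u12 u13 u14 u23 u24 u34 h0 h1 h2 h3 h4) &&
  (ex fun h0 => ex fun h1 => ex fun h2 => ex fun h3 => ex fun h4 => wit4 g01 g02 g03 g04 g12 g13 g14 g23 g24 g34 u01 u02 u03 u12 u13 u14 u23 u24 u34 h0 h1 h2 h3 h4) &&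
  (ex fun h0 => ex fun h1 => ex fun h2 => ex fun h3 => ex fun h4 => wit5 g01 g02 g03 g04 g12 g13 g14 g23 g24 g34 u01 u02 u03 u12 u13 u14 u23 u24 u34 h0 h1 h2 h3 h4)

def inner (g01 g02 g03 g04 g12 g13 g14 g23 g24 g34 : Bool) : Bool :=
  fa fun u01 => fa fun u02 => fa fun u03 => fa fun u12 => fa fun u13 => fa fun u14 => fa fun u23 => fa fun u24 => fa fun u34 => 
    !(ncB g01 g02 g03 g04 g12 g13 g14 g23 g24 g34 u01 u02 u03 u12 u13 u14 u23 u24 u34) || !(allW g01 g02 g03 g04 g12 g13 g14 g23 g24 g34 u01 u02 u03 u12 u13 u14 u23 u24 u34)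

def chk2 (g01 g02 : Bool) : Bool :=
  fa fun g03 => fa fun g04 => fa fun g12 => fa fun g13 => fa fun g14 => fa fun g23 => fa fun g24 => fa fun g34 => 
    !(trB g01 g02 g03 g04 g12 g13 g14 g23 g24 g34) || inner g01 g02 g03 g04 g12 g13 g14 g23 g24 g34

def chk : Bool :=
  fa fun g01 => fa fun g02 => fa fun g03 => fa fun g04 => fa fun g12 => fa fun g13 => fa fun g14 => fa fun g23 => fa fun g24 => fa fun g34 => 
    !(trB g01 g02 g03 g04 g12 g13 g14 g23 g24 g34) || inner g01 g02 g03 g04 g12 g13 g14 g23 g24 g34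

theorem chk_tt : chk2 true true = true := by decide +kernel
theorem chk_tf : chk2 true false = true := by decide +kernel
theorem chk_ft : chk2 false true = true := by decide +kernel
theorem chk_ff : chk2 false false = true := by decide +kernel

theorem chk_true : chk = true := by
  have h : chk = ((chk2 true true && chk2 true false) && (chk2 false true && chk2 false false)) := by
    unfold chk chk2
    conv_lhs => unfold fa; unfold fa
    conv_rhs => unfold fa
  rw [h, chk_tt, chk_tf, chk_ft, chk_ff]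
  rfl

/-- Edges of the bipyramid on `Fin 5`: all pairs except `0 4`. -/
def EB (a b : Fin 5) : Prop := a ≠ b ∧ ¬ (a = 0 ∧ b = 4) ∧ ¬ (a = 4 ∧ b = 0)

instance (a b : Fin 5) : Decidable (EB a b) := by unfold EB; infer_instance

/-- The six faces. -/
def face : Fin 6 → Finset (Fin 5) :=
  ![{0, 1, 2}, {1, 2, 4}, {0, 2, 3}, {0, 1, 3}, {2, 3, 4}, {1, 3, 4}]

theorem coreB (g u : Fin 5 → Fin 5 → Bool) (h : Fin 6 → Fin 5 → Bool)
    (ga : ∀ s t, s ≠ t → g t s = !g s t)
    (gt : ∀ s t r, s ≠ t → t ≠ r → s ≠ r → g s t = g t r → g s r = g s t)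
    (us : ∀ s t, EB s t → u t s = u s t)
    (hm : ∀ f s t, h f s = true → g t s = true → h f t = true)
    (nc : ∀ a b c d, EB a b → EB c d → a ≠ c → a ≠ d → b ≠ c → b ≠ d → u a b = u c d →
      (g a c ^^ g b c) = (g a d ^^ g b d))
    (hw : ∀ f a b c v, EB a b → EB b c → EB c a → v ∈ face f → v ≠ a → v ≠ b → v ≠ c →
      tpB (u a b) (u b c) (u c a) (h f a) (h f b) (h f c) =
        tpB (u a b) (u b c) (u c a) (g a v) (g b v) (g c v)) : False := by
  have a01 := ga 0 1 (by decide)
  have a02 := ga 0 2 (by decide)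
  have a03 := ga 0 3 (by decide)
  have a04 := ga 0 4 (by decide)
  have a12 := ga 1 2 (by decide)
  have a13 := ga 1 3 (by decide)
  have a14 := ga 1 4 (by decide)
  have a23 := ga 2 3 (by decide)
  have a24 := ga 2 4 (by decide)
  have a34 := ga 3 4 (by decide)
  have s01 := us 0 1 (by decide)
  have s02 := us 0 2 (by decide)
  have s03 := us 0 3 (by decide)
  have s12 := us 1 2 (by decide)
  have s13 := us 1 3 (by decide)
  have s14 := us 1 4 (by decide)
  have s23 := us 2 3 (by decide)
  have s24 := us 2 4 (by decide)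
  have s34 := us 3 4 (by decide)
  have c0 := chk_true
  unfold chk at c0
  have c1 := fa_spec (fa_spec (fa_spec (fa_spec (fa_spec (fa_spec (fa_spec (fa_spec (fa_spec (fa_spec c0 (g 0 1)) (g 0 2)) (g 0 3)) (g 0 4)) (g 1 2)) (g 1 3)) (g 1 4)) (g 2 3)) (g 2 4)) (g 3 4)
  have t1 : trB (g 0 1) (g 0 2) (g 0 3) (g 0 4) (g 1 2) (g 1 3) (g 1 4) (g 2 3) (g 2 4) (g 3 4) = true := by
    simp only [trB, Bool.and_eq_true, Bool.or_eq_true, Bool.not_eq_true', beq_eq_false_iff_ne, beq_iff_eq, and_assoc]
    refine ⟨?_, ?_, ?_, ?_, ?_, ?_, ?_, ?_, ?_, ?_⟩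
    · exact (em _).symm.imp id (gt 0 1 2 (by decide) (by decide) (by decide))
    · exact (em _).symm.imp id (gt 0 1 3 (by decide) (by decide) (by decide))
    · exact (em _).symm.imp id (gt 0 1 4 (by decide) (by decide) (by decide))
    · exact (em _).symm.imp id (gt 0 2 3 (by decide) (by decide) (by decide))
    · exact (em _).symm.imp id (gt 0 2 4 (by decide) (by decide) (by decide))
    · exact (em _).symm.imp id (gt 0 3 4 (by decide) (by decide) (by decide))
    · exact (em _).symm.imp id (gt 1 2 3 (by decide) (by decide) (by decide))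
    · exact (em _).symm.imp id (gt 1 2 4 (by decide) (by decide) (by decide))
    · exact (em _).symm.imp id (gt 1 3 4 (by decide) (by decide) (by decide))
    · exact (em _).symm.imp id (gt 2 3 4 (by decide) (by decide) (by decide))
  have t2 : ncB (g 0 1) (g 0 2) (g 0 3) (g 0 4) (g 1 2) (g 1 3) (g 1 4) (g 2 3) (g 2 4) (g 3 4) (u 0 1) (u 0 2) (u 0 3) (u 1 2) (u 1 3) (u 1 4) (u 2 3) (u 2 4) (u 3 4) = true := by
    simp only [ncB, Bool.and_eq_true, Bool.or_eq_true, Bool.not_eq_true', beq_eq_false_iff_ne, beq_iff_eq, and_assoc]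
    refine ⟨?_, ?_, ?_, ?_, ?_, ?_, ?_, ?_, ?_, ?_, ?_, ?_⟩
    · have := nc 0 1 2 3 (by decide) (by decide) (by decide) (by decide) (by decide) (by decide)
      try simp only [a01, a02, a03, a04, a12, a13, a14, a23, a24, a34, s01, s02, s03, s12, s13, s14, s23, s24, s34] at this
      exact (em _).symm.imp id this
    · have := nc 0 1 2 4 (by decide) (by decide) (by decide) (by decide) (by decide) (by decide)
      try simp only [a01, a02, a03, a04, a12, a13, a14, a23, a24, a34, s01, s02, s03, s12, s13, s14, s23, s24, s34] at this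
      exact (em _).symm.imp id this
    · have := nc 0 1 3 4 (by decide) (by decide) (by decide) (by decide) (by decide) (by decide)
      try simp only [a01, a02, a03, a04, a12, a13, a14, a23, a24, a34, s01, s02, s03, s12, s13, s14, s23, s24, s34] at this
      exact (em _).symm.imp id this
    · have := nc 0 2 1 3 (by decide) (by decide) (by decide) (by decide) (by decide) (by decide)
      try simp only [a01, a02, a03, a04, a12, a13, a14, a23, a24, a34, s01, s02, s03, s12, s13, s14, s23, s24, s34] at this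
      exact (em _).symm.imp id this
    · have := nc 0 2 1 4 (by decide) (by decide) (by decide) (by decide) (by decide) (by decide)
      try simp only [a01, a02, a03, a04, a12, a13, a14, a23, a24, a34, s01, s02, s03, s12, s13, s14, s23, s24, s34] at this
      exact (em _).symm.imp id this
    · have := nc 0 2 3 4 (by decide) (by decide) (by decide) (by decide) (by decide) (by decide)
      try simp only [a01, a02, a03, a04, a12, a13, a14, a23, a24, a34, s01, s02, s03, s12, s13, s14, s23, s24, s34] at this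
      exact (em _).symm.imp id this
    · have := nc 0 3 1 2 (by decide) (by decide) (by decide) (by decide) (by decide) (by decide)
      try simp only [a01, a02, a03, a04, a12, a13, a14, a23, a24, a34, s01, s02, s03, s12, s13, s14, s23, s24, s34] at this
      exact (em _).symm.imp id this
    · have := nc 0 3 1 4 (by decide) (by decide) (by decide) (by decide) (by decide) (by decide)
      try simp only [a01, a02, a03, a04, a12, a13, a14, a23, a24, a34, s01, s02, s03, s12, s13, s14, s23, s24, s34] at this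
      exact (em _).symm.imp id this
    · have := nc 0 3 2 4 (by decide) (by decide) (by decide) (by decide) (by decide) (by decide)
      try simp only [a01, a02, a03, a04, a12, a13, a14, a23, a24, a34, s01, s02, s03, s12, s13, s14, s23, s24, s34] at this
      exact (em _).symm.imp id this
    · have := nc 1 2 3 4 (by decide) (by decide) (by decide) (by decide) (by decide) (by decide)
      try simp only [a01, a02, a03, a04, a12, a13, a14, a23, a24, a34, s01, s02, s03, s12, s13, s14, s23, s24, s34] at this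
      exact (em _).symm.imp id this
    · have := nc 1 3 2 4 (by decide) (by decide) (by decide) (by decide) (by decide) (by decide)
      try simp only [a01, a02, a03, a04, a12, a13, a14, a23, a24, a34, s01, s02, s03, s12, s13, s14, s23, s24, s34] at this
      exact (em _).symm.imp id this
    · have := nc 1 4 2 3 (by decide) (by decide) (by decide) (by decide) (by decide) (by decide)
      try simp only [a01, a02, a03, a04, a12, a13, a14, a23, a24, a34, s01, s02, s03, s12, s13, s14, s23, s24, s34] at this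
      exact (em _).symm.imp id this
  have t3 : ∀ f, monB (g 0 1) (g 0 2) (g 0 3) (g 0 4) (g 1 2) (g 1 3) (g 1 4) (g 2 3) (g 2 4) (g 3 4) (h f 0) (h f 1) (h f 2) (h f 3) (h f 4) = true := by
    intro f
    simp only [monB, Bool.and_eq_true, Bool.or_eq_true, Bool.not_eq_true', and_assoc]
    refine ⟨?_, ?_, ?_, ?_, ?_, ?_, ?_, ?_, ?_, ?_, ?_, ?_, ?_, ?_, ?_, ?_, ?_, ?_, ?_, ?_⟩
    · have := hm f 0 1
      try simp only [a01, a02, a03, a04, a12, a13, a14, a23, a24, a34, s01, s02, s03, s12, s13, s14, s23, s24, s34] at this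
      revert this; generalize h f 0 = x; generalize h f 1 = y; generalize g 0 1 = z
      revert x y z; decide
    · have := hm f 0 2
      try simp only [a01, a02, a03, a04, a12, a13, a14, a23, a24, a34, s01, s02, s03, s12, s13, s14, s23, s24, s34] at this
      revert this; generalize h f 0 = x; generalize h f 2 = y; generalize g 0 2 = z
      revert x y z; decide
    · have := hm f 0 3
      try simp only [a01, a02, a03, a04, a12, a13, a14, a23, a24, a34, s01, s02, s03, s12, s13, s14, s23, s24, s34] at this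
      revert this; generalize h f 0 = x; generalize h f 3 = y; generalize g 0 3 = z
      revert x y z; decide
    · have := hm f 0 4
      try simp only [a01, a02, a03, a04, a12, a13, a14, a23, a24, a34, s01, s02, s03, s12, s13, s14, s23, s24, s34] at this
      revert this; generalize h f 0 = x; generalize h f 4 = y; generalize g 0 4 = z
      revert x y z; decide
    · have := hm f 1 0
      try simp only [a01, a02, a03, a04, a12, a13, a14, a23, a24, a34, s01, s02, s03, s12, s13, s14, s23, s24, s34] at this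
      revert this; generalize h f 1 = x; generalize h f 0 = y; generalize g 0 1 = z
      revert x y z; decide
    · have := hm f 1 2
      try simp only [a01, a02, a03, a04, a12, a13, a14, a23, a24, a34, s01, s02, s03, s12, s13, s14, s23, s24, s34] at this
      revert this; generalize h f 1 = x; generalize h f 2 = y; generalize g 1 2 = z
      revert x y z; decide
    · have := hm f 1 3
      try simp only [a01, a02, a03, a04, a12, a13, a14, a23, a24, a34, s01, s02, s03, s12, s13, s14, s23, s24, s34] at this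
      revert this; generalize h f 1 = x; generalize h f 3 = y; generalize g 1 3 = z
      revert x y z; decide
    · have := hm f 1 4
      try simp only [a01, a02, a03, a04, a12, a13, a14, a23, a24, a34, s01, s02, s03, s12, s13, s14, s23, s24, s34] at this
      revert this; generalize h f 1 = x; generalize h f 4 = y; generalize g 1 4 = z
      revert x y z; decide
    · have := hm f 2 0
      try simp only [a01, a02, a03, a04, a12, a13, a14, a23, a24, a34, s01, s02, s03, s12, s13, s14, s23, s24, s34] at this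
      revert this; generalize h f 2 = x; generalize h f 0 = y; generalize g 0 2 = z
      revert x y z; decide
    · have := hm f 2 1
      try simp only [a01, a02, a03, a04, a12, a13, a14, a23, a24, a34, s01, s02, s03, s12, s13, s14, s23, s24, s34] at this
      revert this; generalize h f 2 = x; generalize h f 1 = y; generalize g 1 2 = z
      revert x y z; decide
    · have := hm f 2 3
      try simp only [a01, a02, a03, a04, a12, a13, a14, a23, a24, a34, s01, s02, s03, s12, s13, s14, s23, s24, s34] at this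
      revert this; generalize h f 2 = x; generalize h f 3 = y; generalize g 2 3 = z
      revert x y z; decide
    · have := hm f 2 4
      try simp only [a01, a02, a03, a04, a12, a13, a14, a23, a24, a34, s01, s02, s03, s12, s13, s14, s23, s24, s34] at this
      revert this; generalize h f 2 = x; generalize h f 4 = y; generalize g 2 4 = z
      revert x y z; decide
    · have := hm f 3 0
      try simp only [a01, a02, a03, a04, a12, a13, a14, a23, a24, a34, s01, s02, s03, s12, s13, s14, s23, s24, s34] at this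
      revert this; generalize h f 3 = x; generalize h f 0 = y; generalize g 0 3 = z
      revert x y z; decide
    · have := hm f 3 1
      try simp only [a01, a02, a03, a04, a12, a13, a14, a23, a24, a34, s01, s02, s03, s12, s13, s14, s23, s24, s34] at this
      revert this; generalize h f 3 = x; generalize h f 1 = y; generalize g 1 3 = z
      revert x y z; decide
    · have := hm f 3 2
      try simp only [a01, a02, a03, a04, a12, a13, a14, a23, a24, a34, s01, s02, s03, s12, s13, s14, s23, s24, s34] at this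
      revert this; generalize h f 3 = x; generalize h f 2 = y; generalize g 2 3 = z
      revert x y z; decide
    · have := hm f 3 4
      try simp only [a01, a02, a03, a04, a12, a13, a14, a23, a24, a34, s01, s02, s03, s12, s13, s14, s23, s24, s34] at this
      revert this; generalize h f 3 = x; generalize h f 4 = y; generalize g 3 4 = z
      revert x y z; decide
    · have := hm f 4 0
      try simp only [a01, a02, a03, a04, a12, a13, a14, a23, a24, a34, s01, s02, s03, s12, s13, s14, s23, s24, s34] at this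
      revert this; generalize h f 4 = x; generalize h f 0 = y; generalize g 0 4 = z
      revert x y z; decide
    · have := hm f 4 1
      try simp only [a01, a02, a03, a04, a12, a13, a14, a23, a24, a34, s01, s02, s03, s12, s13, s14, s23, s24, s34] at this
      revert this; generalize h f 4 = x; generalize h f 1 = y; generalize g 1 4 = z
      revert x y z; decide
    · have := hm f 4 2
      try simp only [a01, a02, a03, a04, a12, a13, a14, a23, a24, a34, s01, s02, s03, s12, s13, s14, s23, s24, s34] at this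
      revert this; generalize h f 4 = x; generalize h f 2 = y; generalize g 2 4 = z
      revert x y z; decide
    · have := hm f 4 3
      try simp only [a01, a02, a03, a04, a12, a13, a14, a23, a24, a34, s01, s02, s03, s12, s13, s14, s23, s24, s34] at this
      revert this; generalize h f 4 = x; generalize h f 3 = y; generalize g 3 4 = z
      revert x y z; decide
  have w0 : wit0 (g 0 1) (g 0 2) (g 0 3) (g 0 4) (g 1 2) (g 1 3) (g 1 4) (g 2 3) (g 2 4) (g 3 4) (u 0 1) (u 0 2) (u 0 3) (u 1 2) (u 1 3) (u 1 4) (u 2 3) (u 2 4) (u 3 4) (h 0 0) (h 0 1) (h 0 2) (h 0 3) (h 0 4) = true := by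
    simp only [wit0, Bool.and_eq_true, beq_iff_eq, and_assoc]
    refine ⟨t3 _, ?_, ?_, ?_, ?_, ?_, ?_, ?_, ?_⟩
    · have := hw 0 1 2 4 0 (by decide) (by decide) (by decide) (by decide) (by decide) (by decide) (by decide)
      simpa only [a01, a02, a03, a04, a12, a13, a14, a23, a24, a34, s01, s02, s03, s12, s13, s14, s23, s24, s34] using this
    · have := hw 0 0 2 3 1 (by decide) (by decide) (by decide) (by decide) (by decide) (by decide) (by decide)
      simpa only [a01, a02, a03, a04, a12, a13, a14, a23, a24, a34, s01, s02, s03, s12, s13, s14, s23, s24, s34] using this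
    · have := hw 0 0 1 3 2 (by decide) (by decide) (by decide) (by decide) (by decide) (by decide) (by decide)
      simpa only [a01, a02, a03, a04, a12, a13, a14, a23, a24, a34, s01, s02, s03, s12, s13, s14, s23, s24, s34] using this
    · have := hw 0 2 3 4 0 (by decide) (by decide) (by decide) (by decide) (by decide) (by decide) (by decide)
      simpa only [a01, a02, a03, a04, a12, a13, a14, a23, a24, a34, s01, s02, s03, s12, s13, s14, s23, s24, s34] using this
    · have := hw 0 2 3 4 1 (by decide) (by decide) (by decide) (by decide) (by decide) (by decide) (by decide)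
      simpa only [a01, a02, a03, a04, a12, a13, a14, a23, a24, a34, s01, s02, s03, s12, s13, s14, s23, s24, s34] using this
    · have := hw 0 1 3 4 0 (by decide) (by decide) (by decide) (by decide) (by decide) (by decide) (by decide)
      simpa only [a01, a02, a03, a04, a12, a13, a14, a23, a24, a34, s01, s02, s03, s12, s13, s14, s23, s24, s34] using this
    · have := hw 0 1 3 4 2 (by decide) (by decide) (by decide) (by decide) (by decide) (by decide) (by decide)
      simpa only [a01, a02, a03, a04, a12, a13, a14, a23, a24, a34, s01, s02, s03, s12, s13, s14, s23, s24, s34] using this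
    · have := hw 0 1 2 3 0 (by decide) (by decide) (by decide) (by decide) (by decide) (by decide) (by decide)
      simpa only [a01, a02, a03, a04, a12, a13, a14, a23, a24, a34, s01, s02, s03, s12, s13, s14, s23, s24, s34] using this
  have w1 : wit1 (g 0 1) (g 0 2) (g 0 3) (g 0 4) (g 1 2) (g 1 3) (g 1 4) (g 2 3) (g 2 4) (g 3 4) (u 0 1) (u 0 2) (u 0 3) (u 1 2) (u 1 3) (u 1 4) (u 2 3) (u 2 4) (u 3 4) (h 1 0) (h 1 1) (h 1 2) (h 1 3) (h 1 4) = true := by
    simp only [wit1, Bool.and_eq_true, beq_iff_eq, and_assoc]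
    refine ⟨t3 _, ?_, ?_, ?_, ?_, ?_, ?_, ?_, ?_⟩
    · have := hw 1 0 1 2 4 (by decide) (by decide) (by decide) (by decide) (by decide) (by decide) (by decide)
      simpa only [a01, a02, a03, a04, a12, a13, a14, a23, a24, a34, s01, s02, s03, s12, s13, s14, s23, s24, s34] using this
    · have := hw 1 0 2 3 1 (by decide) (by decide) (by decide) (by decide) (by decide) (by decide) (by decide)
      simpa only [a01, a02, a03, a04, a12, a13, a14, a23, a24, a34, s01, s02, s03, s12, s13, s14, s23, s24, s34] using this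
    · have := hw 1 0 2 3 4 (by decide) (by decide) (by decide) (by decide) (by decide) (by decide) (by decide)
      simpa only [a01, a02, a03, a04, a12, a13, a14, a23, a24, a34, s01, s02, s03, s12, s13, s14, s23, s24, s34] using this
    · have := hw 1 0 1 3 2 (by decide) (by decide) (by decide) (by decide) (by decide) (by decide) (by decide)
      simpa only [a01, a02, a03, a04, a12, a13, a14, a23, a24, a34, s01, s02, s03, s12, s13, s14, s23, s24, s34] using this
    · have := hw 1 0 1 3 4 (by decide) (by decide) (by decide) (by decide) (by decide) (by decide) (by decide)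
      simpa only [a01, a02, a03, a04, a12, a13, a14, a23, a24, a34, s01, s02, s03, s12, s13, s14, s23, s24, s34] using this
    · have := hw 1 2 3 4 1 (by decide) (by decide) (by decide) (by decide) (by decide) (by decide) (by decide)
      simpa only [a01, a02, a03, a04, a12, a13, a14, a23, a24, a34, s01, s02, s03, s12, s13, s14, s23, s24, s34] using this
    · have := hw 1 1 3 4 2 (by decide) (by decide) (by decide) (by decide) (by decide) (by decide) (by decide)
      simpa only [a01, a02, a03, a04, a12, a13, a14, a23, a24, a34, s01, s02, s03, s12, s13, s14, s23, s24, s34] using this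
    · have := hw 1 1 2 3 4 (by decide) (by decide) (by decide) (by decide) (by decide) (by decide) (by decide)
      simpa only [a01, a02, a03, a04, a12, a13, a14, a23, a24, a34, s01, s02, s03, s12, s13, s14, s23, s24, s34] using this
  have w2 : wit2 (g 0 1) (g 0 2) (g 0 3) (g 0 4) (g 1 2) (g 1 3) (g 1 4) (g 2 3) (g 2 4) (g 3 4) (u 0 1) (u 0 2) (u 0 3) (u 1 2) (u 1 3) (u 1 4) (u 2 3) (u 2 4) (u 3 4) (h 2 0) (h 2 1) (h 2 2) (h 2 3) (h 2 4) = true := by
    simp only [wit2, Bool.and_eq_true, beq_iff_eq, and_assoc]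
    refine ⟨t3 _, ?_, ?_, ?_, ?_, ?_, ?_, ?_, ?_⟩
    · have := hw 2 0 1 2 3 (by decide) (by decide) (by decide) (by decide) (by decide) (by decide) (by decide)
      simpa only [a01, a02, a03, a04, a12, a13, a14, a23, a24, a34, s01, s02, s03, s12, s13, s14, s23, s24, s34] using this
    · have := hw 2 1 2 4 0 (by decide) (by decide) (by decide) (by decide) (by decide) (by decide) (by decide)
      simpa only [a01, a02, a03, a04, a12, a13, a14, a23, a24, a34, s01, s02, s03, s12, s13, s14, s23, s24, s34] using this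
    · have := hw 2 1 2 4 3 (by decide) (by decide) (by decide) (by decide) (by decide) (by decide) (by decide)
      simpa only [a01, a02, a03, a04, a12, a13, a14, a23, a24, a34, s01, s02, s03, s12, s13, s14, s23, s24, s34] using this
    · have := hw 2 0 1 3 2 (by decide) (by decide) (by decide) (by decide) (by decide) (by decide) (by decide)
      simpa only [a01, a02, a03, a04, a12, a13, a14, a23, a24, a34, s01, s02, s03, s12, s13, s14, s23, s24, s34] using this
    · have := hw 2 2 3 4 0 (by decide) (by decide) (by decide) (by decide) (by decide) (by decide) (by decide)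
      simpa only [a01, a02, a03, a04, a12, a13, a14, a23, a24, a34, s01, s02, s03, s12, s13, s14, s23, s24, s34] using this
    · have := hw 2 1 3 4 0 (by decide) (by decide) (by decide) (by decide) (by decide) (by decide) (by decide)
      simpa only [a01, a02, a03, a04, a12, a13, a14, a23, a24, a34, s01, s02, s03, s12, s13, s14, s23, s24, s34] using this
    · have := hw 2 1 3 4 2 (by decide) (by decide) (by decide) (by decide) (by decide) (by decide) (by decide)
      simpa only [a01, a02, a03, a04, a12, a13, a14, a23, a24, a34, s01, s02, s03, s12, s13, s14, s23, s24, s34] using this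
    · have := hw 2 1 2 3 0 (by decide) (by decide) (by decide) (by decide) (by decide) (by decide) (by decide)
      simpa only [a01, a02, a03, a04, a12, a13, a14, a23, a24, a34, s01, s02, s03, s12, s13, s14, s23, s24, s34] using this
  have w3 : wit3 (g 0 1) (g 0 2) (g 0 3) (g 0 4) (g 1 2) (g 1 3) (g 1 4) (g 2 3) (g 2 4) (g 3 4) (u 0 1) (u 0 2) (u 0 3) (u 1 2) (u 1 3) (u 1 4) (u 2 3) (u 2 4) (u 3 4) (h 3 0) (h 3 1) (h 3 2) (h 3 3) (h 3 4) = true := by
    simp only [wit3, Bool.and_eq_true, beq_iff_eq, and_assoc]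
    refine ⟨t3 _, ?_, ?_, ?_, ?_, ?_, ?_, ?_, ?_⟩
    · have := hw 3 0 1 2 3 (by decide) (by decide) (by decide) (by decide) (by decide) (by decide) (by decide)
      simpa only [a01, a02, a03, a04, a12, a13, a14, a23, a24, a34, s01, s02, s03, s12, s13, s14, s23, s24, s34] using this
    · have := hw 3 1 2 4 0 (by decide) (by decide) (by decide) (by decide) (by decide) (by decide) (by decide)
      simpa only [a01, a02, a03, a04, a12, a13, a14, a23, a24, a34, s01, s02, s03, s12, s13, s14, s23, s24, s34] using this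
    · have := hw 3 1 2 4 3 (by decide) (by decide) (by decide) (by decide) (by decide) (by decide) (by decide)
      simpa only [a01, a02, a03, a04, a12, a13, a14, a23, a24, a34, s01, s02, s03, s12, s13, s14, s23, s24, s34] using this
    · have := hw 3 0 2 3 1 (by decide) (by decide) (by decide) (by decide) (by decide) (by decide) (by decide)
      simpa only [a01, a02, a03, a04, a12, a13, a14, a23, a24, a34, s01, s02, s03, s12, s13, s14, s23, s24, s34] using this
    · have := hw 3 2 3 4 0 (by decide) (by decide) (by decide) (by decide) (by decide) (by decide) (by decide)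
      simpa only [a01, a02, a03, a04, a12, a13, a14, a23, a24, a34, s01, s02, s03, s12, s13, s14, s23, s24, s34] using this
    · have := hw 3 2 3 4 1 (by decide) (by decide) (by decide) (by decide) (by decide) (by decide) (by decide)
      simpa only [a01, a02, a03, a04, a12, a13, a14, a23, a24, a34, s01, s02, s03, s12, s13, s14, s23, s24, s34] using this
    · have := hw 3 1 3 4 0 (by decide) (by decide) (by decide) (by decide) (by decide) (by decide) (by decide)
      simpa only [a01, a02, a03, a04, a12, a13, a14, a23, a24, a34, s01, s02, s03, s12, s13, s14, s23, s24, s34] using this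
    · have := hw 3 1 2 3 0 (by decide) (by decide) (by decide) (by decide) (by decide) (by decide) (by decide)
      simpa only [a01, a02, a03, a04, a12, a13, a14, a23, a24, a34, s01, s02, s03, s12, s13, s14, s23, s24, s34] using this
  have w4 : wit4 (g 0 1) (g 0 2) (g 0 3) (g 0 4) (g 1 2) (g 1 3) (g 1 4) (g 2 3) (g 2 4) (g 3 4) (u 0 1) (u 0 2) (u 0 3) (u 1 2) (u 1 3) (u 1 4) (u 2 3) (u 2 4) (u 3 4) (h 4 0) (h 4 1) (h 4 2) (h 4 3) (h 4 4) = true := by
    simp only [wit4, Bool.and_eq_true, beq_iff_eq, and_assoc]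
    refine ⟨t3 _, ?_, ?_, ?_, ?_, ?_, ?_, ?_, ?_⟩
    · have := hw 4 0 1 2 3 (by decide) (by decide) (by decide) (by decide) (by decide) (by decide) (by decide)
      simpa only [a01, a02, a03, a04, a12, a13, a14, a23, a24, a34, s01, s02, s03, s12, s13, s14, s23, s24, s34] using this
    · have := hw 4 0 1 2 4 (by decide) (by decide) (by decide) (by decide) (by decide) (by decide) (by decide)
      simpa only [a01, a02, a03, a04, a12, a13, a14, a23, a24, a34, s01, s02, s03, s12, s13, s14, s23, s24, s34] using this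
    · have := hw 4 1 2 4 3 (by decide) (by decide) (by decide) (by decide) (by decide) (by decide) (by decide)
      simpa only [a01, a02, a03, a04, a12, a13, a14, a23, a24, a34, s01, s02, s03, s12, s13, s14, s23, s24, s34] using this
    · have := hw 4 0 2 3 4 (by decide) (by decide) (by decide) (by decide) (by decide) (by decide) (by decide)
      simpa only [a01, a02, a03, a04, a12, a13, a14, a23, a24, a34, s01, s02, s03, s12, s13, s14, s23, s24, s34] using this
    · have := hw 4 0 1 3 2 (by decide) (by decide) (by decide) (by decide) (by decide) (by decide) (by decide)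
      simpa only [a01, a02, a03, a04, a12, a13, a14, a23, a24, a34, s01, s02, s03, s12, s13, s14, s23, s24, s34] using this
    · have := hw 4 0 1 3 4 (by decide) (by decide) (by decide) (by decide) (by decide) (by decide) (by decide)
      simpa only [a01, a02, a03, a04, a12, a13, a14, a23, a24, a34, s01, s02, s03, s12, s13, s14, s23, s24, s34] using this
    · have := hw 4 1 3 4 2 (by decide) (by decide) (by decide) (by decide) (by decide) (by decide) (by decide)
      simpa only [a01, a02, a03, a04, a12, a13, a14, a23, a24, a34, s01, s02, s03, s12, s13, s14, s23, s24, s34] using this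
    · have := hw 4 1 2 3 4 (by decide) (by decide) (by decide) (by decide) (by decide) (by decide) (by decide)
      simpa only [a01, a02, a03, a04, a12, a13, a14, a23, a24, a34, s01, s02, s03, s12, s13, s14, s23, s24, s34] using this
  have w5 : wit5 (g 0 1) (g 0 2) (g 0 3) (g 0 4) (g 1 2) (g 1 3) (g 1 4) (g 2 3) (g 2 4) (g 3 4) (u 0 1) (u 0 2) (u 0 3) (u 1 2) (u 1 3) (u 1 4) (u 2 3) (u 2 4) (u 3 4) (h 5 0) (h 5 1) (h 5 2) (h 5 3) (h 5 4) = true := by
    simp only [wit5, Bool.and_eq_true, beq_iff_eq, and_assoc]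
    refine ⟨t3 _, ?_, ?_, ?_, ?_, ?_, ?_, ?_, ?_⟩
    · have := hw 5 0 1 2 3 (by decide) (by decide) (by decide) (by decide) (by decide) (by decide) (by decide)
      simpa only [a01, a02, a03, a04, a12, a13, a14, a23, a24, a34, s01, s02, s03, s12, s13, s14, s23, s24, s34] using this
    · have := hw 5 0 1 2 4 (by decide) (by decide) (by decide) (by decide) (by decide) (by decide) (by decide)
      simpa only [a01, a02, a03, a04, a12, a13, a14, a23, a24, a34, s01, s02, s03, s12, s13, s14, s23, s24, s34] using this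
    · have := hw 5 1 2 4 3 (by decide) (by decide) (by decide) (by decide) (by decide) (by decide) (by decide)
      simpa only [a01, a02, a03, a04, a12, a13, a14, a23, a24, a34, s01, s02, s03, s12, s13, s14, s23, s24, s34] using this
    · have := hw 5 0 2 3 1 (by decide) (by decide) (by decide) (by decide) (by decide) (by decide) (by decide)
      simpa only [a01, a02, a03, a04, a12, a13, a14, a23, a24, a34, s01, s02, s03, s12, s13, s14, s23, s24, s34] using this
    · have := hw 5 0 2 3 4 (by decide) (by decide) (by decide) (by decide) (by decide) (by decide) (by decide)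
      simpa only [a01, a02, a03, a04, a12, a13, a14, a23, a24, a34, s01, s02, s03, s12, s13, s14, s23, s24, s34] using this
    · have := hw 5 0 1 3 4 (by decide) (by decide) (by decide) (by decide) (by decide) (by decide) (by decide)
      simpa only [a01, a02, a03, a04, a12, a13, a14, a23, a24, a34, s01, s02, s03, s12, s13, s14, s23, s24, s34] using this
    · have := hw 5 2 3 4 1 (by decide) (by decide) (by decide) (by decide) (by decide) (by decide) (by decide)
      simpa only [a01, a02, a03, a04, a12, a13, a14, a23, a24, a34, s01, s02, s03, s12, s13, s14, s23, s24, s34] using this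
    · have := hw 5 1 2 3 4 (by decide) (by decide) (by decide) (by decide) (by decide) (by decide) (by decide)
      simpa only [a01, a02, a03, a04, a12, a13, a14, a23, a24, a34, s01, s02, s03, s12, s13, s14, s23, s24, s34] using this
  have t4 : allW (g 0 1) (g 0 2) (g 0 3) (g 0 4) (g 1 2) (g 1 3) (g 1 4) (g 2 3) (g 2 4) (g 3 4) (u 0 1) (u 0 2) (u 0 3) (u 1 2) (u 1 3) (u 1 4) (u 2 3) (u 2 4) (u 3 4) = true := by
    simp only [allW, Bool.and_eq_true, and_assoc]
    exact ⟨ex_spec (h 0 0) (ex_spec (h 0 1) (ex_spec (h 0 2) (ex_spec (h 0 3) (ex_spec (h 0 4) (w0))))),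
      ex_spec (h 1 0) (ex_spec (h 1 1) (ex_spec (h 1 2) (ex_spec (h 1 3) (ex_spec (h 1 4) (w1))))),
      ex_spec (h 2 0) (ex_spec (h 2 1) (ex_spec (h 2 2) (ex_spec (h 2 3) (ex_spec (h 2 4) (w2))))),
      ex_spec (h 3 0) (ex_spec (h 3 1) (ex_spec (h 3 2) (ex_spec (h 3 3) (ex_spec (h 3 4) (w3))))),
      ex_spec (h 4 0) (ex_spec (h 4 1) (ex_spec (h 4 2) (ex_spec (h 4 3) (ex_spec (h 4 4) (w4))))),
      ex_spec (h 5 0) (ex_spec (h 5 1) (ex_spec (h 5 2) (ex_spec (h 5 3) (ex_spec (h 5 4) (w5)))))⟩
  rw [t1] at c1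
  simp only [Bool.not_true, Bool.false_or] at c1
  unfold inner at c1
  have c2 := fa_spec (fa_spec (fa_spec (fa_spec (fa_spec (fa_spec (fa_spec (fa_spec (fa_spec c1 (u 0 1)) (u 0 2)) (u 0 3)) (u 1 2)) (u 1 3)) (u 1 4)) (u 2 3)) (u 2 4)) (u 3 4)
  rw [t2, t4] at c2
  exact absurd c2 (by decide)

end Pool.Agent.MP_856573_co.H90
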