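import Pool.Agent.MP_856573_co.H90.Defs
import Pool.Agent.MP_856573_co.H90.Finite

/-! A bipyramid on a line, with a vertex on the line attached to each face, is impossible. -/

namespace Pool.Agent.MP_856573_co.H90

open Set

variable {V : Type} {G : SimpleGraph V} {pos : V → ℝ × ℝ} {b : V → V → ℝ × ℝ}

lemma chain_conn (pos : V → ℝ × ℝ) (b : V → V → ℝ × ℝ) (u v : V) :
    IsPreconnected (chain pos b u v) :=
  IsPreconnected.union (b u v) (right_mem_segment _ _ _) (left_mem_segment _ _ _)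
    (convex_segment _ _).isPreconnected (convex_segment _ _).isPreconnected

lemma left_mem_chain (u v : V) : pos u ∈ chain pos b u v := Or.inl (left_mem_segment _ _ _)
lemma right_mem_chain (u v : V) : pos v ∈ chain pos b u v := Or.inr (right_mem_segment _ _ _)

lemma chain_disj (h : CrossingFree G pos (chain pos b)) {u v x y : V} (huv : G.Adj u v)
    (hxy : G.Adj x y) (h1 : u ≠ x) (h2 : u ≠ y) (h3 : v ≠ x) (h4 : v ≠ y) {z : ℝ × ℝ}
    (hz : z ∈ chain pos b u v) : z ∉ chain pos b x y := by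
  intro hz'
  obtain ⟨w, hw, hw', -⟩ := h.2.2 u v x y huv hxy (by simp [h1, h2]) z hz hz'
  rcases hw with rfl | rfl <;> rcases hw' with rfl | rfl <;> simp_all

/-- Parity with respect to the triangle `x y t`. -/
noncomputable def tpar (pos : V → ℝ × ℝ) (b : V → V → ℝ × ℝ) (x y t : V) (z : ℝ × ℝ) : ZMod 2 :=
  par (pos x) (b x y) (pos y) (b y t) (pos t) (b t x) z

lemma tpar_step (h : CrossingFree G pos (chain pos b)) {x y t u v : V} (hxy : G.Adj x y)
    (hyt : G.Adj y t) (htx : G.Adj t x) (huv : G.Adj u v) (hu : u ≠ x ∧ u ≠ y ∧ u ≠ t)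
    (hv : v ≠ x ∧ v ≠ y ∧ v ≠ t) : tpar pos b x y t (pos u) = tpar pos b x y t (pos v) := by
  refine par_const (chain_conn pos b u v) (fun z hz => ?_) (left_mem_chain u v)
    (right_mem_chain u v)
  have a1 := chain_disj h huv hxy hu.1 hu.2.1 hv.1 hv.2.1 hz
  have a2 := chain_disj h huv hyt hu.2.1 hu.2.2 hv.2.1 hv.2.2 hz
  have a3 := chain_disj h huv htx hu.2.2 hu.1 hv.2.2 hv.1 hz
  exact ⟨fun k => a1 (Or.inl k), fun k => a1 (Or.inr k), fun k => a2 (Or.inl k),
    fun k => a2 (Or.inr k), fun k => a3 (Or.inl k), fun k => a3 (Or.inr k)⟩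

lemma tpar_line {x y t : V} (hx : (pos x).2 = 0) (hy : (pos y).2 = 0) (ht : (pos t).2 = 0)
    {z : ℝ × ℝ} (hz : z.2 = 0) : tpar pos b x y t z =
      chi (0 < (b x y).2) * (chi (z.1 < (pos x).1) + chi (z.1 < (pos y).1)) +
      chi (0 < (b y t).2) * (chi (z.1 < (pos y).1) + chi (z.1 < (pos t).1)) +
      chi (0 < (b t x).2) * (chi (z.1 < (pos t).1) + chi (z.1 < (pos x).1)) := by
  unfold tpar par
  rw [cr_left hx hz, cr_right hy hz, cr_left hy hz, cr_right ht hz, cr_left ht hz, cr_right hx hz]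
  ring

lemma seg_sign {A q z : ℝ × ℝ} (hA : A.2 = 0) (hz : z ∈ segment ℝ A q) :
    ∃ t : ℝ, 0 ≤ t ∧ z.2 = t * q.2 ∧ (t = 0 → z = A) := by
  obtain ⟨t, h0, -, h1, h2⟩ := mem_seg.1 hz
  refine ⟨t, h0, by rw [h2, hA]; ring, fun h => Prod.ext (by rw [h1, h]; ring) (by rw [h2, h]; ring)⟩

lemma noncross (h : CrossingFree G pos (chain pos b)) {x y u v : V} (hxy : G.Adj x y)
    (huv : G.Adj u v) (h1 : u ≠ x) (h2 : u ≠ y) (h3 : v ≠ x) (h4 : v ≠ y)
    (hx : (pos x).2 = 0) (hy : (pos y).2 = 0) (hu : (pos u).2 = 0) (hv : (pos v).2 = 0)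
    (hs : 0 < (b x y).2 ↔ 0 < (b u v).2) :
    chi ((pos u).1 < (pos x).1) + chi ((pos u).1 < (pos y).1) =
      chi ((pos v).1 < (pos x).1) + chi ((pos v).1 < (pos y).1) := by
  obtain ⟨q, hq, hq0, hqs⟩ : ∃ q : ℝ × ℝ, chi (0 < (b x y).2) + chi (0 < q.2) = 1 ∧ q.2 ≠ 0 ∧
      (b u v).2 * q.2 ≤ 0 := by
    by_cases hb : 0 < (b x y).2
    · refine ⟨(0, -1), by rw [chi_pos hb, chi_neg (by norm_num), add_zero], by norm_num, ?_⟩
      have := hs.1 hb
      simp only; linarith
    · refine ⟨(0, 1), by rw [chi_neg hb, chi_pos (by norm_num), zero_add], by norm_num, ?_⟩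
      have := not_lt.1 (mt hs.2 hb)
      simp only; linarith
  have hnx : pos x ∉ chain pos b u v := fun k => by
    rcases h.2.1 u v x huv k with k | k
    exacts [h1 k.symm, h3 k.symm]
  have hny : pos y ∉ chain pos b u v := fun k => by
    rcases h.2.1 u v y huv k with k | k
    exacts [h2 k.symm, h4 k.symm]
  have key : ∀ z ∈ chain pos b u v, ∀ A : ℝ × ℝ, A.2 = 0 → A ∉ chain pos b u v →
      z ∉ segment ℝ A q := by
    intro z hz A hA hAn hzA
    obtain ⟨t, t0, ht, ht'⟩ := seg_sign hA hzA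
    have hz' : ∃ r : ℝ, 0 ≤ r ∧ z.2 = r * (b u v).2 := by
      rcases hz with hz | hz
      · obtain ⟨r, r0, hr, -⟩ := seg_sign hu hz
        exact ⟨r, r0, hr⟩
      · rw [segment_symm] at hz
        obtain ⟨r, r0, hr, -⟩ := seg_sign hv hz
        exact ⟨r, r0, hr⟩
    obtain ⟨r, r0, hr⟩ := hz'
    have hsq : 0 < q.2 ^ 2 := by positivity
    have e : t * q.2 ^ 2 = r * ((b u v).2 * q.2) := by
      linear_combination q.2 * (hr - ht)
    have : t * q.2 ^ 2 ≤ 0 := by rw [e]; exact mul_nonpos_of_nonneg_of_nonpos r0 hqs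
    have t0' : t = 0 := by nlinarith
    exact hAn (ht' t0' ▸ hz)
  have := par_const (A := pos x) (B := b x y) (C := pos y) (D := q) (E := pos x) (F := pos x)
    (chain_conn pos b u v) (fun z hz => by
      have a1 := chain_disj h huv hxy h1 h2 h3 h4 hz
      have a2 : z ∉ segment ℝ (pos x) (pos x) := by
        rw [segment_same]; rintro rfl; exact hnx hz
      exact ⟨fun k => a1 (Or.inl k), fun k => a1 (Or.inr k), key z hz _ hy hny,
        by rw [segment_symm]; exact key z hz _ hx hnx, a2, a2⟩)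
    (left_mem_chain u v) (right_mem_chain u v)
  unfold par at this
  rw [cr_left hx hu, cr_right hy hu, cr_left hy hu, cr_right hx hu, cr_left hx hv, cr_right hy hv,
    cr_left hy hv, cr_right hx hv, cr_left hx hu, cr_left hx hv, hx,
    chi_neg (p := (0 : ℝ) < 0) (lt_irrefl _)] at this
  linear_combination this - (chi ((pos u).1 < (pos x).1) + chi ((pos u).1 < (pos y).1) -
    chi ((pos v).1 < (pos x).1) - chi ((pos v).1 < (pos y).1)) * hq

/-- A Boolean as an element of `ZMod 2`. -/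
def bz (p : Bool) : ZMod 2 := if p then 1 else 0

open Classical in
lemma chi_eq (p : Prop) : chi p = bz (decide p) := by
  by_cases h : p <;> simp [chi, bz, h]

lemma bz_xor : ∀ a b c d : Bool, bz a + bz b = bz c + bz d → (a ^^ b) = (c ^^ d) := by decide

lemma bz_tp : ∀ u v w a b c a' b' c' : Bool,
    bz u * (bz a + bz b) + bz v * (bz b + bz c) + bz w * (bz c + bz a) =
      bz u * (bz a' + bz b') + bz v * (bz b' + bz c') + bz w * (bz c' + bz a') →
    tpB u v w a b c = tpB u v w a' b' c' := by decide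

theorem gadget (hsym : ∀ u v, G.Adj u v → b u v = b v u) (h : CrossingFree G pos (chain pos b))
    (X : Fin 5 → V) (hX : Function.Injective X) (hadj : ∀ s t, EB s t → G.Adj (X s) (X t))
    (hL : ∀ s, (pos (X s)).2 = 0) (w : Fin 6 → V) (hwL : ∀ f, (pos (w f)).2 = 0)
    (hconn : ∀ f, ∀ v ∈ face f, ∃ y, y ∉ range X ∧ G.Adj y (X v) ∧
      Relation.ReflTransGen (fun a c => G.Adj a c ∧ a ∉ range X ∧ c ∉ range X) (w f) y) :
    False := by
  classical
  have hx : ∀ s t, s ≠ t → (pos (X s)).1 ≠ (pos (X t)).1 := fun s t hst k =>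
    hst (hX (h.1 (Prod.ext k ((hL s).trans (hL t).symm))))
  refine coreB (fun s t => decide ((pos (X t)).1 < (pos (X s)).1))
    (fun s t => decide (0 < (b (X s) (X t)).2))
    (fun f s => decide ((pos (w f)).1 < (pos (X s)).1)) ?_ ?_ ?_ ?_ ?_ ?_
  · intro s t hst
    rcases lt_or_gt_of_ne (hx s t hst) with k | k <;> simp [k, k.le]
  · intro s t r hst htr hsr k
    simp only [decide_eq_decide] at k ⊢
    rcases lt_or_gt_of_ne (hx s t hst) with k1 | k1
    · have k2 : ¬ (pos (X r)).1 < (pos (X t)).1 := fun k2 => absurd (k.2 k2) (not_lt.2 k1.le)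
      exact iff_of_false (by linarith [not_lt.1 k2]) (not_lt.2 k1.le)
    · exact iff_of_true ((k.1 k1).trans k1) k1
  · intro s t hst
    rw [hsym _ _ (hadj s t hst)]
  · intro f s t k1 k2
    simp only [decide_eq_true_eq] at k1 k2 ⊢
    exact k1.trans k2
  · intro a a' c d h1 h2 n1 n2 n3 n4 k
    simp only [decide_eq_decide] at k
    have := noncross h (hadj _ _ h1) (hadj _ _ h2) (hX.ne n1.symm) (hX.ne n3.symm) (hX.ne n2.symm)
      (hX.ne n4.symm) (hL _) (hL _) (hL _) (hL _) k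
    simp only [chi_eq] at this
    exact bz_xor _ _ _ _ (by convert this)
  · intro f a a' c v h1 h2 h3 hv n1 n2 n3
    obtain ⟨y, hy, hyv, hp⟩ := hconn f v hv
    have ne : ∀ y, y ∉ range X → y ≠ X a ∧ y ≠ X a' ∧ y ≠ X c := fun y hy =>
      ⟨fun k => hy ⟨_, k.symm⟩, fun k => hy ⟨_, k.symm⟩, fun k => hy ⟨_, k.symm⟩⟩
    have e1 : tpar pos b (X a) (X a') (X c) (pos (w f)) = tpar pos b (X a) (X a') (X c) (pos y) := by
      clear hy hyv
      induction hp with
      | refl => rfl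
      | tail _ k ih =>
        exact ih.trans (tpar_step h (hadj _ _ h1) (hadj _ _ h2) (hadj _ _ h3) k.1 (ne _ k.2.1)
          (ne _ k.2.2))
    have e2 := e1.trans (tpar_step h (hadj _ _ h1) (hadj _ _ h2) (hadj _ _ h3) hyv (ne _ hy)
      ⟨hX.ne n1, hX.ne n2, hX.ne n3⟩)
    rw [tpar_line (hL _) (hL _) (hL _) (hwL f), tpar_line (hL _) (hL _) (hL _) (hL v)] at e2
    simp only [chi_eq] at e2
    exact bz_tp _ _ _ _ _ _ _ _ _ (by convert e2)

end Pool.Agent.MP_856573_co.H90
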