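import Pool.Agent.MP_856573_co.H90.Gadget

/-! The nested chain of nine-vertex gadgets and its straight-line drawing. -/

namespace Pool.Agent.MP_856573_co.H90

open Set

/-- Edges of one level: a bipyramid on `0..4`, four stacked vertices `5..8`, and three edges to the
outer triangle `9..11` of the next level. -/
def edgeL : List (Fin 12 × Fin 12) :=
  [(0, 1), (0, 2), (0, 3), (1, 2), (1, 3), (1, 4), (2, 3), (2, 4), (3, 4), (0, 5), (2, 5), (3, 5),
   (0, 6), (1, 6), (3, 6), (2, 7), (3, 7), (4, 7), (1, 8), (3, 8), (4, 8), (4, 9), (1, 10), (2, 11)]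

def base (s t : Fin 12) : Prop := (s, t) ∈ edgeL ∨ (t, s) ∈ edgeL

instance (s t : Fin 12) : Decidable (base s t) := by unfold base; infer_instance

def PZ : Fin 12 → ℤ × ℤ :=
  ![(-60, 120), (-60, -60), (120, -60), (-30, 70), (-10, 30), (10, 43), (-50, 43), (27, 13),
    (-33, 13), (-6, 12), (-6, -6), (12, -6)]

def detZ (s t u : Fin 12) : ℤ :=
  ((PZ t).1 - (PZ s).1) * ((PZ u).2 - (PZ s).2) - ((PZ t).2 - (PZ s).2) * ((PZ u).1 - (PZ s).1)

def ellZ (j : Fin 3) (p : ℤ × ℤ) : ℤ := ![-p.1, -p.2, p.1 + p.2] j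

lemma f_irr : ∀ s, ¬ base s s := by decide
lemma f_det : ∀ s t, base s t → ∀ u, u ≠ s → u ≠ t → detZ s t u ≠ 0 := by decide +kernel
lemma f_sep : ∀ s t, base s t → ∀ s' t', base s' t' → s ≠ s' → s ≠ t' → t ≠ s' → t ≠ t' →
    0 < detZ s t s' * detZ s t t' ∨ 0 < detZ s' t' s * detZ s' t' t := by decide +kernel
lemma f_up : ∀ j s, ellZ j (PZ s) ≤ 60 := by decide +kernel
lemma f_low : ∀ s t, base s t → ∃ j, (6 < ellZ j (PZ s) ∧ 6 < ellZ j (PZ t)) ∨
    (6 < ellZ j (PZ s) ∧ 6 = ellZ j (PZ t) ∧ 9 ≤ t.val) ∨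
    (6 = ellZ j (PZ s) ∧ 6 < ellZ j (PZ t) ∧ 9 ≤ s.val) := by decide +kernel
lemma f_vlow : ∀ s : Fin 12, s.val < 9 → ∃ j, 6 < ellZ j (PZ s) := by decide +kernel
lemma f_inj : ∀ s t, PZ s = PZ t → s = t := by decide +kernel

def PR (s : Fin 12) : ℝ × ℝ := (((PZ s).1 : ℝ), ((PZ s).2 : ℝ))

def ell (j : Fin 3) (p : ℝ × ℝ) : ℝ := ![-p.1, -p.2, p.1 + p.2] j

lemma ell_PR (j : Fin 3) (s : Fin 12) : ell j (PR s) = (ellZ j (PZ s) : ℝ) := by
  fin_cases j <;> simp [ell, ellZ, PR]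

lemma ell_smul (j : Fin 3) (c : ℝ) (p : ℝ × ℝ) : ell j (c • p) = c * ell j p := by
  fin_cases j <;> simp [ell, mul_add]

lemma ell_seg (j : Fin 3) {P Q z : ℝ × ℝ} {t : ℝ} (h1 : z.1 = P.1 + t * (Q.1 - P.1))
    (h2 : z.2 = P.2 + t * (Q.2 - P.2)) : ell j z = (1 - t) * ell j P + t * ell j Q := by
  fin_cases j <;> simp [ell, h1, h2] <;> ring

lemma seg_up {s t : Fin 12} {z : ℝ × ℝ} (hz : z ∈ segment ℝ (PR s) (PR t)) (j : Fin 3) :
    ell j z ≤ 60 := by
  obtain ⟨τ, h0, h1, e1, e2⟩ := mem_seg.1 hz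
  have a : ell j (PR s) ≤ 60 := by rw [ell_PR]; exact_mod_cast f_up j s
  have b : ell j (PR t) ≤ 60 := by rw [ell_PR]; exact_mod_cast f_up j t
  rw [ell_seg j e1 e2]; nlinarith

lemma seg_low {s t : Fin 12} (hb : base s t) {z : ℝ × ℝ} (hz : z ∈ segment ℝ (PR s) (PR t))
    (h : ∀ j, ell j z ≤ 6) : z = PR s ∨ z = PR t := by
  obtain ⟨τ, h0, h1, e1, e2⟩ := mem_seg.1 hz
  obtain ⟨j, hj⟩ := f_low s t hb
  have k := h j
  rw [ell_seg j e1 e2, ell_PR, ell_PR] at k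
  rcases hj with ⟨a, b⟩ | ⟨a, b, -⟩ | ⟨a, b, -⟩
  · have a' : (6 : ℝ) < ellZ j (PZ s) := by exact_mod_cast a
    have b' : (6 : ℝ) < ellZ j (PZ t) := by exact_mod_cast b
    rcases eq_or_lt_of_le h0 with rfl | h0'
    · linarith
    · nlinarith
  · have a' : (6 : ℝ) < ellZ j (PZ s) := by exact_mod_cast a
    have b' : (6 : ℝ) = ellZ j (PZ t) := by exact_mod_cast b
    have : τ = 1 := by rw [← b'] at k; nlinarith
    right; exact Prod.ext (by rw [e1, this]; ring) (by rw [e2, this]; ring)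
  · have a' : (6 : ℝ) = ellZ j (PZ s) := by exact_mod_cast a
    have b' : (6 : ℝ) < ellZ j (PZ t) := by exact_mod_cast b
    have : τ = 0 := by rw [← a'] at k; nlinarith
    left; exact Prod.ext (by rw [e1, this]; ring) (by rw [e2, this]; ring)

def det (P Q z : ℝ × ℝ) : ℝ := (Q.1 - P.1) * (z.2 - P.2) - (Q.2 - P.2) * (z.1 - P.1)

lemma det_PR (s t u : Fin 12) : det (PR s) (PR t) (PR u) = (detZ s t u : ℝ) := by
  simp [det, detZ, PR]

lemma det_zero {P Q z : ℝ × ℝ} (hz : z ∈ segment ℝ P Q) : det P Q z = 0 := by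
  obtain ⟨τ, -, -, e1, e2⟩ := mem_seg.1 hz
  unfold det; rw [e1, e2]; ring

lemma det_seg {P Q A B z : ℝ × ℝ} (hz : z ∈ segment ℝ A B) : ∃ τ : ℝ, 0 ≤ τ ∧ τ ≤ 1 ∧
    det P Q z = (1 - τ) * det P Q A + τ * det P Q B ∧ (τ = 0 → z = A) ∧ (τ = 1 → z = B) := by
  obtain ⟨τ, h0, h1, e1, e2⟩ := mem_seg.1 hz
  refine ⟨τ, h0, h1, by unfold det; rw [e1, e2]; ring,
    fun h => Prod.ext (by rw [e1, h]; ring) (by rw [e2, h]; ring),
    fun h => Prod.ext (by rw [e1, h]; ring) (by rw [e2, h]; ring)⟩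

lemma sep_aux {P Q A B z : ℝ × ℝ} (h1 : z ∈ segment ℝ P Q) (h2 : z ∈ segment ℝ A B)
    (h : 0 < det P Q A * det P Q B) : False := by
  obtain ⟨τ, h0, h1', e, -, -⟩ := det_seg (P := P) (Q := Q) h2
  rw [det_zero h1] at e
  have hA : det P Q A ≠ 0 := fun k => by rw [k, zero_mul] at h; exact lt_irrefl _ h
  have hsq : 0 < det P Q A ^ 2 := by positivity
  have e2 : (1 - τ) * det P Q A ^ 2 + τ * (det P Q A * det P Q B) = 0 := by
    linear_combination (-det P Q A) * e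
  rcases eq_or_lt_of_le h0 with rfl | h0'
  · linarith
  · nlinarith

lemma base_vertex {s t u : Fin 12} (hb : base s t) (hz : PR u ∈ segment ℝ (PR s) (PR t)) :
    u = s ∨ u = t := by
  by_contra hc
  push Not at hc
  have := det_zero hz
  rw [det_PR] at this
  exact f_det s t hb u hc.1 hc.2 (by exact_mod_cast this)

lemma share {s t t' : Fin 12} (hb : base s t) (h1 : t' ≠ s) (h2 : t' ≠ t) {z : ℝ × ℝ}
    (hz : z ∈ segment ℝ (PR s) (PR t)) (hz' : z ∈ segment ℝ (PR s) (PR t')) : z = PR s := by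
  obtain ⟨τ, -, -, e, k, -⟩ := det_seg (P := PR s) (Q := PR t) hz'
  rw [det_zero hz, det_zero (left_mem_segment _ _ _), det_PR] at e
  have : (detZ s t t' : ℝ) ≠ 0 := by exact_mod_cast f_det s t hb t' h1 h2
  exact k (by
    rcases mul_eq_zero.1 (show τ * (detZ s t t' : ℝ) = 0 by linarith) with k | k
    exacts [k, absurd k this])

lemma base_symm {s t : Fin 12} (h : base s t) : base t s := Or.symm h

lemma base_edges {s t s' t' : Fin 12} (hb : base s t) (hb' : base s' t')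
    (n1 : ¬ (s = s' ∧ t = t')) (n2 : ¬ (s = t' ∧ t = s')) {z : ℝ × ℝ}
    (hz : z ∈ segment ℝ (PR s) (PR t)) (hz' : z ∈ segment ℝ (PR s') (PR t')) :
    ∃ u, (u = s ∨ u = t) ∧ (u = s' ∨ u = t') ∧ z = PR u := by
  have i' : s' ≠ t' := fun k => f_irr s' (by rw [← k] at hb'; exact hb')
  by_cases a1 : s = s'
  · subst a1
    exact ⟨s, Or.inl rfl, Or.inl rfl, share hb i'.symm (fun k => n1 ⟨rfl, k.symm⟩) hz hz'⟩
  by_cases a2 : s = t'
  · subst a2
    rw [segment_symm] at hz'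
    exact ⟨s, Or.inl rfl, Or.inr rfl, share hb i' (fun k => n2 ⟨rfl, k.symm⟩) hz hz'⟩
  by_cases a3 : t = s'
  · subst a3
    rw [segment_symm] at hz
    exact ⟨t, Or.inr rfl, Or.inl rfl, share (base_symm hb) i'.symm (Ne.symm a2) hz hz'⟩
  by_cases a4 : t = t'
  · subst a4
    rw [segment_symm] at hz hz'
    exact ⟨t, Or.inr rfl, Or.inr rfl, share (base_symm hb) i' (Ne.symm a1) hz hz'⟩
  exfalso
  rcases f_sep s t hb s' t' hb' a1 a2 a3 a4 with k | k
  · exact sep_aux hz hz' (by rw [det_PR, det_PR]; exact_mod_cast k)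
  · exact sep_aux hz' hz (by rw [det_PR, det_PR]; exact_mod_cast k)

/-- Level and index of the vertex `s` of level `i`. -/
def vtx (i : ℕ) (s : Fin 12) : ℕ × ℕ := if s.val < 9 then (i, s.val) else (i + 1, s.val - 9)

lemma vtx_inj {i : ℕ} {s t : Fin 12} (h : vtx i s = vtx i t) : s = t := by
  unfold vtx at h
  apply Fin.ext
  split_ifs at h <;> simp only [Prod.mk.injEq] at h <;> omega

def lab {k : ℕ} (u : Fin k × Fin 9) : ℕ × ℕ := (u.1.val, u.2.val)

lemma lab_inj {k : ℕ} {u v : Fin k × Fin 9} (h : lab u = lab v) : u = v := by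
  simp only [lab, Prod.mk.injEq] at h
  exact Prod.ext (Fin.ext h.1) (Fin.ext h.2)

/-- The graph with `k` levels. -/
def GG (k : ℕ) : SimpleGraph (Fin k × Fin 9) where
  Adj u v := ∃ i s t, base s t ∧ lab u = vtx i s ∧ lab v = vtx i t
  symm := ⟨fun _ _ ⟨i, s, t, h, h1, h2⟩ => ⟨i, t, s, base_symm h, h2, h1⟩⟩
  loopless := ⟨fun _ ⟨_, s, _, h, h1, h2⟩ =>
    f_irr s (by rw [← vtx_inj (h1.symm.trans h2)] at h; exact h)⟩

def up (t : Fin 9) : Fin 12 := t.castLE (by norm_num)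

noncomputable def posG {k : ℕ} (u : Fin k × Fin 9) : ℝ × ℝ := ((1 / 10 : ℝ) ^ u.1.val) • PR (up u.2)

lemma lab_up {k : ℕ} (u : Fin k × Fin 9) : lab u = vtx u.1.val (up u.2) := by
  simp [lab, vtx, up]

lemma pos_vtx {k i : ℕ} {u : Fin k × Fin 9} {s : Fin 12} (h : lab u = vtx i s) :
    posG u = ((1 / 10 : ℝ) ^ i) • PR s := by
  unfold vtx lab at h
  unfold posG
  split_ifs at h with hs
  · simp only [Prod.mk.injEq] at h
    rw [h.1, show up u.2 = s from Fin.ext h.2]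
  · simp only [Prod.mk.injEq] at h
    rw [h.1, pow_succ, mul_smul]
    congr 1
    have h2 : up u.2 = ⟨s.val - 9, by omega⟩ := Fin.ext h.2
    rw [h2]
    fin_cases s <;> simp at hs <;> simp [PR, PZ] <;> norm_num

lemma unscale {c : ℝ} (hc : 0 < c) {P Q z : ℝ × ℝ} (h : z ∈ segment ℝ (c • P) (c • Q)) :
    ∃ z₀ ∈ segment ℝ P Q, z = c • z₀ := by
  obtain ⟨a, b, ha, hb, hab, rfl⟩ := h
  exact ⟨a • P + b • Q, ⟨a, b, ha, hb, hab, rfl⟩, by rw [smul_add, smul_comm a, smul_comm b]⟩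

lemma pow_step {i j : ℕ} (h : i < j) : (1 / 10 : ℝ) ^ j * 60 ≤ (1 / 10 : ℝ) ^ i * 6 := by
  have : (1 / 10 : ℝ) ^ j ≤ (1 / 10 : ℝ) ^ (i + 1) :=
    pow_le_pow_of_le_one (by norm_num) (by norm_num) h
  rw [pow_succ] at this
  linarith

lemma rpos (i : ℕ) : 0 < (1 / 10 : ℝ) ^ i := by positivity

lemma vert_not_deep {k : ℕ} (w : Fin k × Fin 9) {i : ℕ} (h : w.1.val < i) {z₀ : ℝ × ℝ}
    (hz : ∀ j, ell j z₀ ≤ 60) : posG w ≠ ((1 / 10 : ℝ) ^ i) • z₀ := by
  intro e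
  obtain ⟨j, hj⟩ := f_vlow (up w.2) w.2.2
  have a : (6 : ℝ) < ell j (PR (up w.2)) := by rw [ell_PR]; exact_mod_cast hj
  have e2 := congrArg (ell j) e
  unfold posG at e2
  rw [ell_smul, ell_smul] at e2
  have := pow_step h
  have := rpos w.1.val
  have := rpos i
  have := hz j
  nlinarith

lemma posG_inj {k : ℕ} : Function.Injective (posG (k := k)) := by
  intro u v h
  rcases lt_trichotomy u.1.val v.1.val with k1 | k1 | k1
  · exact absurd h (vert_not_deep u k1 (seg_up (left_mem_segment ℝ _ (PR 0))))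
  · unfold posG at h
    rw [k1] at h
    have h2 := smul_right_injective _ (rpos _).ne' h
    simp only [PR, Prod.mk.injEq, Int.cast_inj] at h2
    have h3 := f_inj _ _ (Prod.ext h2.1 h2.2)
    exact Prod.ext (Fin.ext k1) (Fin.ext (by simpa [up] using congrArg Fin.val h3))
  · exact absurd h.symm (vert_not_deep v k1 (seg_up (left_mem_segment ℝ _ (PR 0))))

lemma deep_end {i j : ℕ} (h : i < j) {s t : Fin 12} (hb : base s t) {z₀ z₁ : ℝ × ℝ}
    (h0 : z₀ ∈ segment ℝ (PR s) (PR t)) (h1 : ∀ l, ell l z₁ ≤ 60)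
    (e : ((1 / 10 : ℝ) ^ i) • z₀ = ((1 / 10 : ℝ) ^ j) • z₁) : z₀ = PR s ∨ z₀ = PR t := by
  refine seg_low hb h0 fun l => ?_
  have e2 := congrArg (ell l) e
  rw [ell_smul, ell_smul] at e2
  have := pow_step h
  have := rpos i
  have := rpos j
  have := h1 l
  by_contra hc
  push Not at hc
  nlinarith

lemma vert_on_edge {k : ℕ} {u v w : Fin k × Fin 9} (h : (GG k).Adj u v)
    (hw : posG w ∈ segment ℝ (posG u) (posG v)) : w = u ∨ w = v := by
  obtain ⟨i, s, t, hb, hu, hv⟩ := h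
  rw [pos_vtx hu, pos_vtx hv] at hw
  obtain ⟨z₀, hz, e⟩ := unscale (rpos i) hw
  rcases lt_trichotomy w.1.val i with k1 | k1 | k1
  · exact absurd e (vert_not_deep w k1 (seg_up hz))
  · unfold posG at e
    rw [k1] at e
    have h2 := smul_right_injective _ (rpos _).ne' e
    rw [← h2] at hz
    have hl := lab_up w
    rw [k1] at hl
    exact (base_vertex hb hz).imp (fun k => lab_inj (by rw [hl, hu, k]))
      (fun k => lab_inj (by rw [hl, hv, k]))
  · exact (deep_end k1 hb hz (seg_up (left_mem_segment ℝ _ (PR 0))) e.symm).imp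
      (fun k => posG_inj (by rw [e, k, pos_vtx hu])) (fun k => posG_inj (by rw [e, k, pos_vtx hv]))

lemma edge_cross {k : ℕ} {u v u' v' : Fin k × Fin 9} (h : (GG k).Adj u v) (h' : (GG k).Adj u' v')
    (hne : s(u, v) ≠ s(u', v')) {p : ℝ × ℝ} (hp : p ∈ segment ℝ (posG u) (posG v))
    (hp' : p ∈ segment ℝ (posG u') (posG v')) :
    ∃ w, (w = u ∨ w = v) ∧ (w = u' ∨ w = v') ∧ p = posG w := by
  obtain ⟨i, s, t, hb, hu, hv⟩ := id h
  obtain ⟨i', s', t', hb', hu', hv'⟩ := id h'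
  have q := hp
  have q' := hp'
  rw [pos_vtx hu, pos_vtx hv] at q
  rw [pos_vtx hu', pos_vtx hv'] at q'
  obtain ⟨z₀, hz, e⟩ := unscale (rpos i) q
  obtain ⟨z₁, hz', e'⟩ := unscale (rpos i') q'
  rcases lt_trichotomy i i' with k1 | k1 | k1
  · rcases deep_end k1 hb hz (seg_up hz') (e.symm.trans e') with k | k
    · have : p = posG u := by rw [e, k, pos_vtx hu]
      exact ⟨u, Or.inl rfl, vert_on_edge h' (this ▸ hp'), this⟩
    · have : p = posG v := by rw [e, k, pos_vtx hv]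
      exact ⟨v, Or.inr rfl, vert_on_edge h' (this ▸ hp'), this⟩
  · subst k1
    have h2 : z₀ = z₁ := smul_right_injective _ (rpos _).ne' (e.symm.trans e')
    subst h2
    obtain ⟨x, a1, a2, a3⟩ := base_edges hb hb'
      (fun k => hne (by
        rw [lab_inj (u := u) (v := u') (by rw [hu, hu', k.1]),
          lab_inj (u := v) (v := v') (by rw [hv, hv', k.2])]))
      (fun k => hne (by
        rw [lab_inj (u := u) (v := v') (by rw [hu, hv', k.1]),
          lab_inj (u := v) (v := u') (by rw [hv, hu', k.2]), Sym2.eq_swap])) hz hz'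
    rcases a1 with rfl | rfl
    · exact ⟨u, Or.inl rfl, a2.imp (fun k => lab_inj (by rw [hu, hu', k]))
        (fun k => lab_inj (by rw [hu, hv', k])), by rw [e, a3, pos_vtx hu]⟩
    · exact ⟨v, Or.inr rfl, a2.imp (fun k => lab_inj (by rw [hv, hu', k]))
        (fun k => lab_inj (by rw [hv, hv', k])), by rw [e, a3, pos_vtx hv]⟩
  · rcases deep_end k1 hb' hz' (seg_up hz) (e'.symm.trans e) with k | k
    · have : p = posG u' := by rw [e', k, pos_vtx hu']
      exact ⟨u', vert_on_edge h (this ▸ hp), Or.inl rfl, this⟩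
    · have : p = posG v' := by rw [e', k, pos_vtx hv']
      exact ⟨v', vert_on_edge h (this ▸ hp), Or.inr rfl, this⟩

theorem planar_comap {k : ℕ} {W : Type} (e : W → Fin k × Fin 9) (he : Function.Injective e) :
    IsPlanar ((GG k).comap e) := by
  refine ⟨fun u => posG (e u), fun u v => AffineMap.lineMap (posG (e u)) (posG (e v)), ?_, ?_⟩
  · intro u v h
    refine ⟨AffineMap.lineMap_continuous.continuousOn, (AffineMap.lineMap_injective ℝ
      (posG_inj.ne (show (GG k).Adj (e u) (e v) from h).ne)).injOn, by simp, by simp, ?_⟩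
    rw [← segment_eq_image_lineMap, ← segment_eq_image_lineMap, segment_symm]
  · simp only [← segment_eq_image_lineMap]
    refine ⟨posG_inj.comp he, fun u v w h hw => (vert_on_edge h hw).imp (he ·) (he ·), ?_⟩
    intro u v u' v' h h' hne p hp hp'
    obtain ⟨w, a1, a2, a3⟩ := edge_cross h h' (fun k => hne (by
      rcases Sym2.eq_iff.1 k with ⟨k1, k2⟩ | ⟨k1, k2⟩
      · rw [he k1, he k2]
      · rw [he k1, he k2, Sym2.eq_swap])) hp hp'
    rcases a1 with rfl | rfl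
    · exact ⟨u, Or.inl rfl, a2.imp (he ·) (he ·), a3⟩
    · exact ⟨v, Or.inr rfl, a2.imp (he ·) (he ·), a3⟩

end Pool.Agent.MP_856573_co.H90
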