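import Pool.Agent.MP_856573_co.H90.Graph

/-! At most two levels of the nested chain lie entirely in a 1-bend free set. -/

namespace Pool.Agent.MP_856573_co.H90

open Set Relation

variable {k : ℕ}

lemma adj_same (l : Fin k) {s t : Fin 9} (h : base (up s) (up t)) : (GG k).Adj (l, s) (l, t) :=
  ⟨l.val, up s, up t, h, lab_up (l, s), lab_up (l, t)⟩

lemma adj_next {l l' : Fin k} (hl : l'.val = l.val + 1) {s t : Fin 9} {t' : Fin 12}
    (ht : t'.val = t.val + 9) (h : base (up s) t') : (GG k).Adj (l, s) (l', t) :=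
  ⟨l.val, up s, t', h, lab_up (l, s), by
    unfold lab vtx
    rw [if_neg (by omega)]
    simp only [Prod.mk.injEq]
    omega⟩

/-- Adjacency away from level `i`. -/
def Off (i : Fin k) (u v : Fin k × Fin 9) : Prop := (GG k).Adj u v ∧ u.1 ≠ i ∧ v.1 ≠ i

lemma off_symm {i : Fin k} {u v : Fin k × Fin 9} (h : ReflTransGen (Off i) u v) :
    ReflTransGen (Off i) v u := by
  induction h with
  | refl => exact .refl
  | tail _ k ih => exact .head ⟨k.1.symm, k.2.2, k.2.1⟩ ih

lemma f_hub : ∀ s : Fin 9, s ≠ 3 → base (up s) (up 3) := by decide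

lemma off_level {i l : Fin k} (h : l ≠ i) (s t : Fin 9) : ReflTransGen (Off i) (l, s) (l, t) := by
  have a : ∀ s : Fin 9, ReflTransGen (Off i) (l, s) (l, 3) := fun s => by
    by_cases hs : s = 3
    · rw [hs]
    · exact .single ⟨adj_same l (f_hub s hs), h, h⟩
  exact (a s).trans (off_symm (a t))

lemma off_range {i : Fin k} (d : ℕ) : ∀ (l l' : Fin k), l'.val = l.val + d →
    (i.val < l.val ∨ l'.val < i.val) → ∀ s t, ReflTransGen (Off i) (l, s) (l', t) := by
  induction d with
  | zero =>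
    intro l l' h hi s t
    have : l' = l := Fin.ext h
    subst this
    exact off_level (fun e => by rw [e] at hi; omega) s t
  | succ d ih =>
    intro l l' h hi s t
    let l₁ : Fin k := ⟨l.val + d, by have := l'.2; omega⟩
    have e1 : l₁.val = l.val + d := rfl
    have n1 : l₁ ≠ i := fun e => by rw [← e] at hi; omega
    have n2 : l' ≠ i := fun e => by rw [← e] at hi; omega
    exact ((ih l l₁ e1 (by omega) s 1).tail ⟨adj_next (t' := 10) (t := 1) (by omega) rfl
      (by decide), n1, n2⟩).trans (off_level n2 1 t)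

def up5 (s : Fin 5) : Fin 9 := s.castLE (by norm_num)

lemma f_EB : ∀ s t, EB s t → base (up (up5 s)) (up (up5 t)) := by decide
lemma f_out : ∀ v ∈ face 0, ∃ (s : Fin 9) (t' : Fin 12), t'.val = (up5 v).val + 9 ∧
    base (up s) t' := by decide
lemma f_in : ∀ v ∈ face 1, ∃ (t : Fin 9) (t' : Fin 12), t'.val = t.val + 9 ∧
    base (up (up5 v)) t' := by decide
lemma f_st : (∀ v ∈ face 2, base (up 5) (up (up5 v))) ∧ (∀ v ∈ face 3, base (up 6) (up (up5 v))) ∧
    (∀ v ∈ face 4, base (up 7) (up (up5 v))) ∧ (∀ v ∈ face 5, base (up 8) (up (up5 v))) := by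
  decide

lemma three_levels {W : Type} {H : SimpleGraph W} (ι : Fin k × Fin 9 → W)
    (hι : Function.Injective ι) (hom : ∀ u v, (GG k).Adj u v → H.Adj (ι u) (ι v))
    {pos : W → ℝ × ℝ} (hd : OneBend H pos) {a i c : Fin k} (hai : a < i) (hic : i < c)
    (ha : (pos (ι (a, 0))).2 = 0) (hi : ∀ t, (pos (ι (i, t))).2 = 0)
    (hc : (pos (ι (c, 0))).2 = 0) : False := by
  obtain ⟨b, hb, hcf⟩ := hd
  have hai' : a.val < i.val := hai
  have hic' : i.val < c.val := hic
  have nr : ∀ u : Fin k × Fin 9, u.1 ≠ i → ι u ∉ range fun s => ι (i, up5 s) := by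
    rintro u hu ⟨s, hs⟩
    exact hu (by rw [← hι hs])
  have nr' : ∀ t : Fin 9, 5 ≤ t.val → ι (i, t) ∉ range fun s => ι (i, up5 s) := by
    rintro t ht ⟨s, hs⟩
    have := congrArg (fun u => u.2.val) (hι hs)
    simp only [up5, Fin.val_castLE] at this
    omega
  have lift : ∀ u v, ReflTransGen (Off i) u v → ReflTransGen (fun x y => H.Adj x y ∧
      x ∉ range (fun s => ι (i, up5 s)) ∧ y ∉ range (fun s => ι (i, up5 s))) (ι u) (ι v) :=
    fun u v h => h.lift ι fun x y k => ⟨hom _ _ k.1, nr _ k.2.1, nr _ k.2.2⟩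
  refine gadget (fun u v h => (hb u v h).1) hcf (fun s => ι (i, up5 s))
    (fun s t h => Fin.castLE_injective _ (Prod.mk.inj (hι h)).2)
    (fun s t h => hom _ _ (adj_same i (f_EB s t h))) (fun s => hi _)
    ![ι (a, 0), ι (c, 0), ι (i, 5), ι (i, 6), ι (i, 7), ι (i, 8)] ?_ ?_
  · intro f
    fin_cases f
    exacts [ha, hc, hi _, hi _, hi _, hi _]
  · intro f v hv
    fin_cases f
    · obtain ⟨s, t', h1, h2⟩ := f_out v hv
      let l : Fin k := ⟨i.val - 1, by have := i.2; omega⟩
      have e1 : l.val = i.val - 1 := rfl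
      exact ⟨ι (l, s), nr _ (fun e => by have := congrArg Fin.val e; simp only at this; omega),
        hom _ _ (adj_next (by omega) h1 h2),
        lift _ _ (off_range (l.val - a.val) a l (by omega) (by omega) 0 s)⟩
    · obtain ⟨t, t', h1, h2⟩ := f_in v hv
      let l : Fin k := ⟨i.val + 1, by have := c.2; omega⟩
      have e1 : l.val = i.val + 1 := rfl
      exact ⟨ι (l, t), nr _ (fun e => by have := congrArg Fin.val e; simp only at this; omega),
        (hom _ _ (adj_next e1 h1 h2)).symm,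
        lift _ _ (off_symm (off_range (c.val - l.val) l c (by omega) (by omega) t 0))⟩
    · exact ⟨ι (i, 5), nr' _ (by decide), hom _ _ (adj_same i (f_st.1 v hv)), .refl⟩
    · exact ⟨ι (i, 6), nr' _ (by decide), hom _ _ (adj_same i (f_st.2.1 v hv)), .refl⟩
    · exact ⟨ι (i, 7), nr' _ (by decide), hom _ _ (adj_same i (f_st.2.2.1 v hv)), .refl⟩
    · exact ⟨ι (i, 8), nr' _ (by decide), hom _ _ (adj_same i (f_st.2.2.2 v hv)), .refl⟩

theorem free_le {W : Type} (e : W ≃ Fin k × Fin 9) {s : ℕ} {v : Fin s → W}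
    (h : IsFree ((GG k).comap e) v) : s ≤ 8 * k + 2 := by
  classical
  obtain ⟨pos, hd, hp⟩ := h.2 (fun i => (i.val : ℝ)) (fun _ => 0)
    (fun i j hij => Nat.cast_lt.2 hij)
  let T : Finset (Fin k × Fin 9) := Finset.univ.image fun i => e (v i)
  have hT : T.card = s := by
    exact (Finset.card_image_of_injective _ (e.injective.comp h.1)).trans (by simp)
  have hL : ∀ u ∈ T, (pos (e.symm u)).2 = 0 := by
    intro u hu
    obtain ⟨i, -, rfl⟩ := Finset.mem_image.1 hu
    rw [e.symm_apply_apply, hp]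
  let F : Finset (Fin k) := Finset.univ.filter fun i => ∀ t, (i, t) ∈ T
  have key : ∀ a i c, a ∈ F → i ∈ F → c ∈ F → a < i → i < c → False := by
    intro a i c ha hi hc h1 h2
    exact three_levels e.symm e.symm.injective (fun u v k => by simpa using k) hd h1 h2
      (hL _ ((Finset.mem_filter.1 ha).2 0)) (fun t => hL _ ((Finset.mem_filter.1 hi).2 t))
      (hL _ ((Finset.mem_filter.1 hc).2 0))
  have hF : F.card ≤ 2 := by
    by_contra hc
    obtain ⟨x, y, z, hx, hy, hz, n1, n2, n3⟩ := Finset.two_lt_card_iff.1 (not_le.1 hc)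
    rcases lt_or_gt_of_ne n1 with k1 | k1 <;> rcases lt_or_gt_of_ne n2 with k2 | k2 <;>
      rcases lt_or_gt_of_ne n3 with k3 | k3
    · exact key x y z hx hy hz k1 k3
    · exact key x z y hx hz hy k2 k3
    · exact absurd (k1.trans k3) (not_lt.2 k2.le)
    · exact key z x y hz hx hy k2 k1
    · exact key y x z hy hx hz k1 k2
    · exact absurd (k2.trans k3) (not_lt.2 k1.le)
    · exact key y z x hy hz hx k3 k2
    · exact key z y x hz hy hx k3 k1
  have h1 : T.card = ∑ i : Fin k, (T.filter fun u => u.1 = i).card :=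
    Finset.card_eq_sum_card_fiberwise (fun u _ => Finset.mem_univ _)
  have h2 : ∀ i : Fin k, (T.filter fun u => u.1 = i).card ≤ 8 + if i ∈ F then 1 else 0 := by
    intro i
    have inj : Set.InjOn (fun u : Fin k × Fin 9 => u.2) (T.filter fun u => u.1 = i) := by
      intro u hu w hw huw
      exact Prod.ext ((Finset.mem_filter.1 hu).2.trans (Finset.mem_filter.1 hw).2.symm) huw
    split_ifs with hi
    · simpa using Finset.card_le_card_of_injOn (t := Finset.univ) _
        (fun u _ => Finset.mem_univ _) inj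
    · have : ∃ t, (i, t) ∉ T := by simpa [F] using hi
      obtain ⟨t, ht⟩ := this
      have := Finset.card_le_card_of_injOn (t := Finset.univ.erase t) _ (fun u hu => by
        have hu' := Finset.mem_filter.1 hu
        refine Finset.mem_coe.2 (Finset.mem_erase.2 ⟨fun k => ht ?_, Finset.mem_univ _⟩)
        have : u = (i, t) := Prod.ext hu'.2 k
        exact this ▸ hu'.1) inj
      simpa using this
  have h3 : ∑ i : Fin k, (8 + if i ∈ F then 1 else 0) = 8 * k + F.card := by
    rw [Finset.sum_add_distrib, Finset.sum_ite_mem]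
    simp [mul_comm]
  have := Finset.sum_le_sum fun i (_ : i ∈ Finset.univ) => h2 i
  omega

theorem m_le {W : Type} (e : W ≃ Fin k × Fin 9) : m ((GG k).comap e) ≤ 8 * k + 2 :=
  csSup_le' fun _ ⟨_, h⟩ => free_le e h

end Pool.Agent.MP_856573_co.H90
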