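import Mathlib

/-! Ray-casting parity for closed polygons with six corners. -/

namespace Pool.Agent.MP_856573_co.H90

open Set Filter Topology

/-- Indicator with values in `ZMod 2`. -/
noncomputable def chi (p : Prop) : ZMod 2 := by classical exact if p then 1 else 0

lemma chi_pos {p : Prop} (h : p) : chi p = 1 := by simp [chi, h]
lemma chi_neg {p : Prop} (h : ¬ p) : chi p = 0 := by simp [chi, h]
lemma chi_congr {p q : Prop} (h : p ↔ q) : chi p = chi q := by rw [propext h]

/-- Signed horizontal offset of the line `P Q` at the height of `z`, cleared of denominators. -/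
def off (P Q z : ℝ × ℝ) : ℝ :=
  ((P.1 - z.1) * (Q.2 - P.2) + (z.2 - P.2) * (Q.1 - P.1)) * (Q.2 - P.2)

/-- The rightward ray from `z` crosses the segment `P Q` (half-open rule). -/
noncomputable def cr (P Q z : ℝ × ℝ) : ZMod 2 :=
  chi (¬ (z.2 < P.2 ↔ z.2 < Q.2) ∧ 0 < off P Q z)

/-- Correction term at a corner. -/
noncomputable def kap (z₀ P z : ℝ × ℝ) : ZMod 2 := chi (z.2 < P.2 ∧ z₀.1 < P.1)

lemma off_cont (P Q : ℝ × ℝ) : Continuous (off P Q) := by
  unfold off; fun_prop

lemma ev_iff {f : ℝ × ℝ → ℝ} (hf : Continuous f) {z₀ : ℝ × ℝ} (h : f z₀ ≠ 0) :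
    ∀ᶠ z in 𝓝 z₀, (0 < f z ↔ 0 < f z₀) := by
  rcases lt_or_gt_of_ne h with h | h
  · filter_upwards [(hf.tendsto z₀).eventually (gt_mem_nhds h)] with z hz
    exact iff_of_false (not_lt.2 hz.le) (not_lt.2 h.le)
  · filter_upwards [(hf.tendsto z₀).eventually (lt_mem_nhds h)] with z hz
    exact iff_of_true hz h

lemma ev_lt {z₀ : ℝ × ℝ} {a : ℝ} (h : a ≠ z₀.2) :
    ∀ᶠ z : ℝ × ℝ in 𝓝 z₀, (z.2 < a ↔ z₀.2 < a) := by
  filter_upwards [ev_iff (f := fun z : ℝ × ℝ => a - z.2) (by fun_prop) (sub_ne_zero.2 h)] with z hz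
  simpa [sub_pos] using hz

lemma mem_seg {P Q z : ℝ × ℝ} : z ∈ segment ℝ P Q ↔
    ∃ t : ℝ, 0 ≤ t ∧ t ≤ 1 ∧ z.1 = P.1 + t * (Q.1 - P.1) ∧ z.2 = P.2 + t * (Q.2 - P.2) := by
  rw [segment_eq_image']
  constructor
  · rintro ⟨t, ⟨h0, h1⟩, rfl⟩
    exact ⟨t, h0, h1, by simp, by simp⟩
  · rintro ⟨t, h0, h1, h2, h3⟩
    exact ⟨t, ⟨h0, h1⟩, Prod.ext (by simp [h2]) (by simp [h3])⟩

lemma cr_local {P Q z₀ : ℝ × ℝ} (h : z₀ ∉ segment ℝ P Q) :
    ∀ᶠ z in 𝓝 z₀, cr P Q z + kap z₀ P z + kap z₀ Q z =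
      cr P Q z₀ + kap z₀ P z₀ + kap z₀ Q z₀ := by
  by_cases hP : P.2 = z₀.2
  · have hP1 : P.1 ≠ z₀.1 := fun h1 => h (by
      have : z₀ = P := Prod.ext h1.symm hP.symm
      rw [this]; exact left_mem_segment _ _ _)
    by_cases hQ : Q.2 = z₀.2
    · have hs : (z₀.1 < P.1 ↔ z₀.1 < Q.1) := by
        by_contra hc
        apply h
        rw [mem_seg]
        have hne : Q.1 - P.1 ≠ 0 := by
          intro h0
          exact hc (by rw [show Q.1 = P.1 by linarith])
        refine ⟨(z₀.1 - P.1) / (Q.1 - P.1), ?_, ?_, by field_simp; ring, by rw [hP, hQ]; ring⟩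
        · by_cases h1 : z₀.1 < P.1
          · have h2 : ¬ z₀.1 < Q.1 := fun h2 => hc (iff_of_true h1 h2)
            exact div_nonneg_of_nonpos (by linarith) (by linarith)
          · have h2 : z₀.1 < Q.1 := by
              by_contra h2; exact hc (iff_of_false h1 h2)
            exact div_nonneg (by linarith) (by linarith)
        · by_cases h1 : z₀.1 < P.1
          · have h2 : ¬ z₀.1 < Q.1 := fun h2 => hc (iff_of_true h1 h2)
            rw [div_le_one_of_neg (by linarith)]; linarith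
          · have h2 : z₀.1 < Q.1 := by
              by_contra h2; exact hc (iff_of_false h1 h2)
            rw [div_le_one (by linarith)]; linarith
      refine Eventually.of_forall fun z => ?_
      have e1 : ∀ w : ℝ × ℝ, cr P Q w = 0 := fun w => chi_neg (by simp [hP, hQ])
      have e2 : ∀ w : ℝ × ℝ, kap z₀ P w = kap z₀ Q w := fun w =>
        chi_congr (by rw [hP, hQ, hs])
      rw [e1, e1, e2, e2]
      generalize kap z₀ Q z = a
      generalize kap z₀ Q z₀ = b
      revert a b; decide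
    · have hd : Q.2 - P.2 ≠ 0 := by rw [hP]; exact sub_ne_zero.2 hQ
      have ho : off P Q z₀ = (P.1 - z₀.1) * (Q.2 - P.2) ^ 2 := by unfold off; rw [hP]; ring
      have hsq : 0 < (Q.2 - P.2) ^ 2 := by positivity
      have hne : off P Q z₀ ≠ 0 := by
        rw [ho]; exact mul_ne_zero (sub_ne_zero.2 hP1) hsq.ne'
      have hs : 0 < off P Q z₀ ↔ z₀.1 < P.1 := by
        rw [ho, mul_pos_iff_of_pos_right hsq, sub_pos]
      filter_upwards [ev_iff (off_cont P Q) hne, ev_lt hQ] with z h1 h2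
      unfold cr kap
      rw [h1, h2, hs]
      by_cases a : z.2 < P.2 <;> by_cases b : z₀.2 < P.2 <;> by_cases c : z₀.2 < Q.2 <;>
        by_cases d : z₀.1 < P.1 <;> by_cases e : z₀.1 < Q.1 <;> simp [chi, a, b, c, d, e] <;> decide
  · by_cases hQ : Q.2 = z₀.2
    · have hQ1 : Q.1 ≠ z₀.1 := fun h1 => h (by
        have : z₀ = Q := Prod.ext h1.symm hQ.symm
        rw [this]; exact right_mem_segment _ _ _)
      have hd : Q.2 - P.2 ≠ 0 := by rw [hQ]; exact sub_ne_zero.2 (Ne.symm hP)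
      have ho : off P Q z₀ = (Q.1 - z₀.1) * (Q.2 - P.2) ^ 2 := by unfold off; rw [← hQ]; ring
      have hsq : 0 < (Q.2 - P.2) ^ 2 := by positivity
      have hne : off P Q z₀ ≠ 0 := by
        rw [ho]; exact mul_ne_zero (sub_ne_zero.2 hQ1) hsq.ne'
      have hs : 0 < off P Q z₀ ↔ z₀.1 < Q.1 := by
        rw [ho, mul_pos_iff_of_pos_right hsq, sub_pos]
      filter_upwards [ev_iff (off_cont P Q) hne, ev_lt hP] with z h1 h2
      unfold cr kap
      rw [h1, h2, hs]
      by_cases a : z.2 < Q.2 <;> by_cases b : z₀.2 < P.2 <;> by_cases c : z₀.2 < Q.2 <;>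
        by_cases d : z₀.1 < P.1 <;> by_cases e : z₀.1 < Q.1 <;> simp [chi, a, b, c, d, e] <;> decide
    · by_cases hs : (z₀.2 < P.2 ↔ z₀.2 < Q.2)
      · filter_upwards [ev_lt hP, ev_lt hQ] with z h1 h2
        unfold cr kap
        rw [h1, h2, chi_neg (p := ¬ (z₀.2 < P.2 ↔ z₀.2 < Q.2) ∧ 0 < off P Q z) (by simp [hs]),
          chi_neg (p := ¬ (z₀.2 < P.2 ↔ z₀.2 < Q.2) ∧ 0 < off P Q z₀) (by simp [hs])]
      · have hd : Q.2 - P.2 ≠ 0 := by
          intro h0
          exact hs (by rw [show Q.2 = P.2 by linarith])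
        have hne : off P Q z₀ ≠ 0 := by
          intro h0
          unfold off at h0
          have h1 := (mul_eq_zero.1 h0).resolve_right hd
          apply h
          rw [mem_seg]
          refine ⟨(z₀.2 - P.2) / (Q.2 - P.2), ?_, ?_, by field_simp; linarith, by field_simp; ring⟩
          · by_cases h1 : z₀.2 < P.2
            · have h2 : ¬ z₀.2 < Q.2 := fun h2 => hs (iff_of_true h1 h2)
              exact div_nonneg_of_nonpos (by linarith) (by linarith)
            · have h2 : z₀.2 < Q.2 := by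
                by_contra h2; exact hs (iff_of_false h1 h2)
              exact div_nonneg (by linarith) (by linarith)
          · by_cases h1 : z₀.2 < P.2
            · have h2 : ¬ z₀.2 < Q.2 := fun h2 => hs (iff_of_true h1 h2)
              rw [div_le_one_of_neg (by linarith)]; linarith
            · have h2 : z₀.2 < Q.2 := by
                by_contra h2; exact hs (iff_of_false h1 h2)
              rw [div_le_one (by linarith)]; linarith
        filter_upwards [ev_iff (off_cont P Q) hne, ev_lt hP, ev_lt hQ] with z h0 h1 h2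
        unfold cr kap
        rw [h0, h1, h2]

/-- Crossing parity of the closed polygon with corners `A B C D E F`. -/
noncomputable def par (A B C D E F z : ℝ × ℝ) : ZMod 2 :=
  cr A B z + cr B C z + cr C D z + cr D E z + cr E F z + cr F A z

lemma par_const {A B C D E F : ℝ × ℝ} {K : Set (ℝ × ℝ)} (hK : IsPreconnected K)
    (h : ∀ z ∈ K, z ∉ segment ℝ A B ∧ z ∉ segment ℝ B C ∧ z ∉ segment ℝ C D ∧
      z ∉ segment ℝ D E ∧ z ∉ segment ℝ E F ∧ z ∉ segment ℝ F A) {x y : ℝ × ℝ}
    (hx : x ∈ K) (hy : y ∈ K) : par A B C D E F x = par A B C D E F y := by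
  let _ : TopologicalSpace (ZMod 2) := ⊥
  have : DiscreteTopology (ZMod 2) := ⟨rfl⟩
  refine hK.constant (fun z₀ hz => ContinuousAt.continuousWithinAt ?_) hx hy
  obtain ⟨h1, h2, h3, h4, h5, h6⟩ := h z₀ hz
  refine Tendsto.congr' ?_ tendsto_const_nhds
  filter_upwards [cr_local h1, cr_local h2, cr_local h3, cr_local h4, cr_local h5, cr_local h6]
    with z e1 e2 e3 e4 e5 e6
  unfold par
  have t : ∀ a : ZMod 2, a + a = 0 := by decide
  linear_combination -e1 - e2 - e3 - e4 - e5 - e6 + t (kap z₀ A z) + t (kap z₀ B z) +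
    t (kap z₀ C z) + t (kap z₀ D z) + t (kap z₀ E z) + t (kap z₀ F z) - t (kap z₀ A z₀) -
    t (kap z₀ B z₀) - t (kap z₀ C z₀) - t (kap z₀ D z₀) - t (kap z₀ E z₀) - t (kap z₀ F z₀)

lemma cr_left {A b z : ℝ × ℝ} (hA : A.2 = 0) (hz : z.2 = 0) :
    cr A b z = chi (0 < b.2) * chi (z.1 < A.1) := by
  unfold cr
  have ho : off A b z = (A.1 - z.1) * b.2 ^ 2 := by unfold off; rw [hA, hz]; ring
  rw [hA, hz, ho]
  by_cases hb : 0 < b.2
  · have hsq : 0 < b.2 ^ 2 := by positivity
    rw [mul_pos_iff_of_pos_right hsq, sub_pos, chi_pos hb, one_mul]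
    exact chi_congr (by simp [hb])
  · rw [chi_neg hb, zero_mul]
    exact chi_neg (by simp [hb])

lemma cr_right {A b z : ℝ × ℝ} (hA : A.2 = 0) (hz : z.2 = 0) :
    cr b A z = chi (0 < b.2) * chi (z.1 < A.1) := by
  unfold cr
  have ho : off b A z = (A.1 - z.1) * b.2 ^ 2 := by unfold off; rw [hA, hz]; ring
  rw [hA, hz, ho]
  by_cases hb : 0 < b.2
  · have hsq : 0 < b.2 ^ 2 := by positivity
    rw [mul_pos_iff_of_pos_right hsq, sub_pos, chi_pos hb, one_mul]
    exact chi_congr (by simp [hb])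
  · rw [chi_neg hb, zero_mul]
    exact chi_neg (by simp [hb])

end Pool.Agent.MP_856573_co.H90
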